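import Pool.Agent.Run7.h796.Lower2

/-!
Lower bound for the asymptotic critical exponent of `fixSeq 9`.
-/

namespace Run7.h796.Rep

lemma exponent_ge {α : Type} (u : ℕ → α) (s m r p q : ℕ) (hr : 0 < r) (hm : 0 < m)
    (hper : ∀ i, s ≤ i → i + r < s + m → u i = u (i + r)) (hq : 0 < q)
    (h : p * r ≤ q * m) : (p : ℝ) / q ≤ exponent (block u s m) := by
  have hlen := block_length u s m
  have h1 : IsPeriod (block u s m) r := by
    refine ⟨hr, ?_⟩
    intro i hi
    rw [hlen] at hi
    rw [block_get? u s m i (by omega), block_get? u s m (i + r) hi]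
    rw [hper (s + i) (by omega) (by omega), Nat.add_assoc]
  have h2 := minPeriod_le _ _ h1
  have h3 := (minPeriod_spec (block u s m) (by rw [hlen]; exact hm)).1
  unfold exponent
  rw [hlen, div_le_div_iff₀ (by exact_mod_cast hq) (by exact_mod_cast h3)]
  have h4 : p * minPeriod (block u s m) ≤ m * q := by
    calc p * minPeriod (block u s m) ≤ p * r := Nat.mul_le_mul_left _ h2
      _ ≤ q * m := h
      _ = m * q := Nat.mul_comm _ _
  exact_mod_cast h4

lemma nA_ge (l : ℕ) : l ≤ nA l := by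
  induction l with
  | zero => omega
  | succ l ih =>
    have := nA_succ l
    have := nG_pos l
    omega

theorem long_rep (N : ℕ) : ∃ s m, 0 < m ∧ N ≤ m ∧
    ((348 : ℕ) : ℝ) / ((169 : ℕ) : ℝ) ≤ exponent (block (fixSeq 9) s m) := by
  obtain ⟨s, hs⟩ := run9 (N + 1)
  have h1 := ineq9 (N + 1) (by omega)
  have h2 := nA_ge (N + 1)
  refine ⟨s, 2 * (nA (N + 1) + nG (N + 1 + 8)) + nA (N + 1) + 2 * nE (N + 1), by omega,
    by omega, ?_⟩
  exact exponent_ge _ s _ (nA (N + 1) + nG (N + 1 + 8)) 348 169 (by omega) (by omega) hs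
    (by norm_num) (by omega)

theorem asym_lower : ((35 / 17 : ℝ) : EReal) < asymCritExp (fixSeq 9) := by
  unfold asymCritExp
  split_ifs with h
  · exact EReal.coe_lt_top _
  · have h1 : ((35 / 17 : ℝ) : EReal) < (((348 : ℕ) : ℝ) / ((169 : ℕ) : ℝ) : ℝ) := by
      rw [EReal.coe_lt_coe_iff]
      norm_num
    refine lt_of_lt_of_le h1 ?_
    refine le_iInf fun N => ?_
    obtain ⟨s, m, hm, hN, hx⟩ := long_rep N
    refine le_iSup_of_le s (le_iSup_of_le m (le_iSup_of_le ⟨hm, hN⟩ ?_))
    exact_mod_cast hx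

end Run7.h796.Rep
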