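import Pool.Agent.Run7.h796.Rich2

/-!
Richness of `U`, assembled.
-/

namespace Run7.h796.Rep

set_option maxRecDepth 100000

lemma newPal_17 : NewPal 17 1 := by
  have hv := valA
  have h4 : lA 4 = 34 := by tauto
  refine ⟨by norm_num, by norm_num, ?_, ?_⟩
  · intro i hi
    obtain rfl : i = 0 := by omega
    rfl
  · exact new_of_occ 4 17 1 (by norm_num) (by omega) (by norm_num) (by norm_num) (by decide)

lemma pl8 : (Pl 8).getD 289 0 = (Pl 8).getD 291 0 := by decide +kernel

lemma newPal_292 : NewPal 292 3 := by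
  have hv := valA
  have h8 : lA 8 = 584 := by tauto
  refine ⟨by norm_num, by norm_num, ?_, ?_⟩
  · have hl := Pl_len 8 (by norm_num)
    have e0 := Pl_get 8 (by norm_num) 289 (by omega)
    have e2 := Pl_get 8 (by norm_num) 291 (by omega)
    have e3 : (Pl 8)[289]'(by omega) = (Pl 8)[291]'(by omega) := by
      have h := pl8
      rw [List.getD_eq_getElem _ _ (by omega), List.getD_eq_getElem _ _ (by omega)] at h
      exact h
    intro i hi
    interval_cases i
    · show U 289 = U 291
      rw [← e0, ← e2, e3]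
    · rfl
    · show U 291 = U 289
      rw [← e0, ← e2, e3]
  · exact new_of_occ 8 292 3 (by norm_num) (by omega) (by norm_num) (by norm_num)
      (by decide +kernel)

lemma newPal_one : NewPal 1 1 := by
  refine ⟨le_rfl, le_rfl, ?_, ?_⟩
  · intro i hi
    obtain rfl : i = 0 := by omega
    rfl
  · intro D hD1 hD2
    omega

lemma exists_level (N : ℕ) (hN : 2 ≤ N) : ∃ k, lA k < N ∧ N ≤ lA (k + 1) := by
  have hex : ∃ k, N ≤ lA k := ⟨N, by have := lA_ge N; omega⟩
  classical
  have h1 := Nat.find_spec hex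
  have h2 : Nat.find hex ≠ 0 := by
    intro h0
    rw [h0, lA_zero] at h1
    omega
  refine ⟨Nat.find hex - 1, ?_, ?_⟩
  · have h3 := Nat.find_min hex (show Nat.find hex - 1 < Nat.find hex by omega)
    omega
  · rw [show Nat.find hex - 1 + 1 = Nat.find hex by omega]
    exact h1

/-- region I, restated -/
lemma regionI' (k N : ℕ) (h1 : lA (k + 1) < N) (h2 : N ≤ lA (k + 1) + Ef k (k + 1)) :
    NewPal N (lA k + 2 * (N - lA (k + 1))) := by
  have h3 := regionI k (N - lA (k + 1)) (by omega) (by omega) (by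
    have h4 : Ef k (k + 1) ≤ lA k + lG k := by
      unfold Ef
      split_ifs with hc
      · rw [hc.1, lA_zero]; omega
      · have := eE_rough k
        omega
    omega)
  rwa [show lA (k + 1) + (N - lA (k + 1)) = N by omega] at h3

lemma valA' :
    lA (0 + 1) = 3 ∧ lA (1 + 1) = 8 ∧ lA (2 + 1) = 16 ∧ lA (3 + 1) = 34 ∧ lA (4 + 1) = 69 ∧
    lA (5 + 1) = 141 ∧ lA (6 + 1) = 287 ∧ lA (7 + 1) = 584 ∧ lA (8 + 1) = 1186 ∧
    lA (9 + 1) = 2407 := by
  decide

theorem newPal_exists (N : ℕ) (hN : 1 ≤ N) : ∃ m, NewPal N m := by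
  rcases Nat.lt_or_ge N 2 with h | h
  · obtain rfl : N = 1 := by omega
    exact ⟨1, newPal_one⟩
  obtain ⟨k, h1, h2⟩ := exists_level N h
  have hv := valA
  have hv' := valA'
  have hE := valE
  rcases Nat.lt_or_ge k 10 with hk | hk
  · have hEf : ∀ j, Ef (j + 1) (j + 1 + 1) = eE (j + 1) := by
      intro j; unfold Ef; rw [if_neg (by omega)]
    have hE0 : Ef 0 1 = 1 := rfl
    interval_cases k
    · exact ⟨_, regionII 0 2 N core_0 (by omega) (by omega) h2⟩
    · rcases Nat.lt_or_ge N 5 with c | c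
      · exact ⟨_, regionI' 0 N h1 (by simp only [Nat.zero_add] at *; omega)⟩
      · exact ⟨_, regionII 1 5 N core_1 (by omega) c h2⟩
    · exact ⟨_, regionII 2 9 N core_2 (by omega) (by omega) h2⟩
    · rcases Nat.lt_or_ge N 18 with c | c
      · obtain rfl : N = 17 := by omega
        exact ⟨1, newPal_17⟩
      · exact ⟨_, regionII 3 18 N core_3 (by omega) c h2⟩
    · rcases Nat.lt_or_ge N 36 with c | c
      · have := hEf 2
        exact ⟨_, regionI' 3 N h1 (by simp only [Nat.reduceAdd] at *; omega)⟩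
      · exact ⟨_, regionII 4 36 N core_4 (by omega) c h2⟩
    · rcases Nat.lt_or_ge N 71 with c | c
      · have := hEf 3
        exact ⟨_, regionI' 4 N h1 (by simp only [Nat.reduceAdd] at *; omega)⟩
      · exact ⟨_, regionII 5 71 N core_5 (by omega) c h2⟩
    · rcases Nat.lt_or_ge N 144 with c | c
      · have := hEf 4
        exact ⟨_, regionI' 5 N h1 (by simp only [Nat.reduceAdd] at *; omega)⟩
      · exact ⟨_, regionII 6 144 N core_6 (by omega) c h2⟩
    · rcases Nat.lt_or_ge N 293 with c | c
      · rcases Nat.lt_or_ge N 292 with c2 | c2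
        · have := hEf 5
          exact ⟨_, regionI' 6 N h1 (by simp only [Nat.reduceAdd] at *; omega)⟩
        · obtain rfl : N = 292 := by omega
          exact ⟨3, newPal_292⟩
      · exact ⟨_, regionII 7 293 N core_7 (by omega) c h2⟩
    · rcases Nat.lt_or_ge N 594 with c | c
      · have := hEf 6
        exact ⟨_, regionI' 7 N h1 (by simp only [Nat.reduceAdd] at *; omega)⟩
      · exact ⟨_, regionII 8 594 N core_8 (by omega) c h2⟩
    · rcases Nat.lt_or_ge N 1205 with c | c
      · have := hEf 7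
        exact ⟨_, regionI' 8 N h1 (by simp only [Nat.reduceAdd] at *; omega)⟩
      · exact ⟨_, regionII 9 1205 N core_9 (by omega) c h2⟩
  · obtain ⟨l, rfl⟩ : ∃ l, k = l + 10 := ⟨k - 10, by omega⟩
    have hEf : Ef (l + 9) (l + 9 + 1) = eE (l + 9) := by
      unfold Ef; rw [if_neg (by omega)]
    have hA := lA_succ (l + 10)
    have hG := lG_add l
    have hE9 := eE_add l
    rcases Nat.lt_or_ge (lA (l + 10) + eE (l + 9)) N with c | c
    · exact ⟨_, regionII (l + 10) (lA (l + 10) + eE (l + 9) + 1) N (core_large l) (by omega)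
        (by omega) h2⟩
    · refine ⟨_, regionI' (l + 9) N h1 ?_⟩
      rw [hEf]
      exact c

/-- the sequence `U` is rich -/
theorem rich_U : IsRichSeq U :=
  rich_of_new U (fun N hN => newPal_exists N hN)

end Run7.h796.Rep
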