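import Mathlib

/-!
Basic definitions for repetition thresholds of rich sequences
(problem MP_9d05bc_co).
-/

namespace Run7.h796.Rep

/-- The factor (block) of length `m` of the sequence `u` that starts at position `j`. -/
def block {α : Type} (u : ℕ → α) (j m : ℕ) : List α :=
  (List.range m).map (fun i => u (j + i))

/-- The set of palindromic factors of a finite word, the empty word included. -/
def palFactors {α : Type} (w : List α) : Set (List α) :=
  {x | x <:+: w ∧ x.reverse = x}

/-- A finite word `w` is rich if it has exactly `|w| + 1` distinct palindromic factors. -/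
def IsRich {α : Type} (w : List α) : Prop :=
  (palFactors w).ncard = w.length + 1

/-- A sequence is rich if all of its factors are rich. -/
def IsRichSeq {α : Type} (u : ℕ → α) : Prop :=
  ∀ j m : ℕ, IsRich (block u j m)

/-- `q` is a period of the word `w`: `q` is positive and letters at distance `q` agree. -/
def IsPeriod {α : Type} (w : List α) (q : ℕ) : Prop :=
  0 < q ∧ ∀ i : ℕ, i + q < w.length → w[i]? = w[i + q]?

/-- The smallest period of a word. -/
noncomputable def minPeriod {α : Type} (w : List α) : ℕ :=
  sInf {q | IsPeriod w q}

/-- The exponent of a word: its length divided by its smallest period. -/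
noncomputable def exponent {α : Type} (w : List α) : ℝ :=
  (w.length : ℝ) / (minPeriod w : ℝ)

/-- The critical exponent: supremum of the exponents of the nonempty factors. -/
noncomputable def critExp {α : Type} (u : ℕ → α) : EReal :=
  ⨆ (j : ℕ) (m : ℕ) (_ : 0 < m), ((exponent (block u j m) : ℝ) : EReal)

/-- The asymptotic critical exponent: `⊤` if the critical exponent is infinite, and otherwise the
limit, that is, the infimum over `n`, of the supremum of the exponents of the (nonempty) factors
of length at least `n`. -/
noncomputable def asymCritExp {α : Type} (u : ℕ → α) : EReal :=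
  open Classical in
  if critExp u = ⊤ then ⊤
  else ⨅ n : ℕ, ⨆ (j : ℕ) (m : ℕ) (_ : 0 < m ∧ n ≤ m), ((exponent (block u j m) : ℝ) : EReal)

/-- The repetition threshold of a class of sequences. -/
noncomputable def RT {α : Type} (C : Set (ℕ → α)) : EReal :=
  ⨅ u ∈ C, critExp u

/-- The class of rich sequences over the alphabet `Fin d`. -/
def richSeqs (d : ℕ) : Set (ℕ → Fin d) :=
  {u | IsRichSeq u}

/-- The image of the letter `i` under the morphism on `{0, 1, ..., n-1}` given by
`i ↦ 0 (i+1)` for `i ≤ n-2` and `n-1 ↦ 0 (n-1) (n-1)`. -/
def morph (n : ℕ) (i : ℕ) : List ℕ :=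
  if i + 1 < n then [0, i + 1] else [0, n - 1, n - 1]

/-- The morphism applied to a word. -/
def morphWord (n : ℕ) (w : List ℕ) : List ℕ :=
  w.flatMap (morph n)

/-- The fixed point, starting with `0`, of the morphism `morph n`: its letter number `i` is the
letter number `i` of the `i`-th iterate of the morphism at the word `0`. -/
def fixSeq (n : ℕ) : ℕ → ℕ :=
  fun i => ((morphWord n)^[i] [0]).getD i 0

end Run7.h796.Rep
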