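import Pool.Agent.Run7.h796.Ineq

/-!
Divergence of gap words and occurrences of the palindromic beginnings.
-/

namespace Run7.h796.Rep

lemma cp_succ (l j : ℕ) : cp l (j + 1) = cp l j + (lA l + lG (l + fixSeq 10 j)) := c_succ l j

lemma cp_zero (l : ℕ) : cp l 0 = 0 := c_zero l

lemma cp_one (l : ℕ) : cp l 1 = lA l + lG l := isLenU.c_one l

lemma cp_up (l j : ℕ) : cp (l + 1) j = cp l (tau 10 j) := isLenU.c_up l j

lemma cp_lt (l : ℕ) {j k : ℕ} (h : j < k) : cp l j + lA l ≤ cp l k := by
  induction k, h using Nat.le_induction with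
  | base => rw [cp_succ]; omega
  | succ k _ ih => rw [cp_succ]; omega

lemma cp_le (l : ℕ) {j k : ℕ} (h : j ≤ k) : cp l j ≤ cp l k := by
  rcases Nat.lt_or_ge j k with h1 | h1
  · have := cp_lt l h1; omega
  · rw [show j = k by omega]

lemma cp_inj (l : ℕ) {j k : ℕ} (h : cp l j < cp l k) : j < k := by
  by_contra hc
  have := cp_le l (show k ≤ j by omega)
  omega

lemma cp_inj' (l : ℕ) {j k : ℕ} (h : cp l j = cp l k) : j = k := by
  have hl := lA_ge l
  rcases Nat.lt_trichotomy j k with h1 | h1 | h1
  · have := cp_lt l h1; omega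
  · exact h1
  · have := cp_lt l h1; omega

lemma U1 (l j t : ℕ) (ht : t < lA l) : U (cp l j + t) = U t := isSysU.L1 l j t ht

lemma U2 (l j t : ℕ) (ht : t < lG (l + fixSeq 10 j)) :
    U (cp l j + lA l + t) = U (lA (l + fixSeq 10 j) + t) := isSysU.L2 l j t ht

lemma UP (l t : ℕ) (ht : t < lA l) : U (lA l + lG l + t) = U t := isSysU.P1 l t ht

/-- text to the right of a canonical occurrence -/
lemma URT (l j t : ℕ) (ht : t < lG (l + fixSeq 10 j) + lA l) :
    U (cp l j + lA l + t) = U (lA (l + fixSeq 10 j) + t) := by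
  rcases Nat.lt_or_ge t (lG (l + fixSeq 10 j)) with h | h
  · exact U2 l j t h
  · have h1 := U1 l (j + 1) (t - lG (l + fixSeq 10 j)) (by omega)
    rw [cp_succ] at h1
    have h2 := UP (l + fixSeq 10 j) (t - lG (l + fixSeq 10 j)) (by
      have := lA_mono (show l ≤ l + fixSeq 10 j by omega)
      omega)
    rw [show cp l j + (lA l + lG (l + fixSeq 10 j)) + (t - lG (l + fixSeq 10 j))
      = cp l j + lA l + t by omega] at h1
    rw [show lA (l + fixSeq 10 j) + lG (l + fixSeq 10 j) + (t - lG (l + fixSeq 10 j))
      = lA (l + fixSeq 10 j) + t by omega] at h2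
    rw [h1, h2]

/-- text to the left of a canonical occurrence, read backwards -/
lemma ULT (l j t : ℕ) (ht : t < lG (l + fixSeq 10 j) + lA l) :
    U (cp l (j + 1) - 1 - t) = U (lA (l + fixSeq 10 j) + t) := by
  set x := fixSeq 10 j with hx
  have hs := cp_succ l j
  rw [← hx] at hs
  rcases Nat.lt_or_ge t (lG (l + x)) with h | h
  · have h1 := U2 l j (lG (l + x) - 1 - t) (by rw [← hx]; omega)
    rw [← hx] at h1
    have h2 := isSysU.palGap (l + x) t h
    rw [show cp l (j + 1) - 1 - t = cp l j + lA l + (lG (l + x) - 1 - t) by omega, h1, h2]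
    congr 1
    omega
  · have h1 := U1 l j (lA l - 1 - (t - lG (l + x))) (by omega)
    have h2 := UP (l + x) (t - lG (l + x)) (by
      have := lA_mono (show l ≤ l + x by omega)
      omega)
    have h3 := isSysU.palP l (t - lG (l + x)) (by omega)
    rw [show cp l (j + 1) - 1 - t = cp l j + (lA l - 1 - (t - lG (l + x))) by omega, h1, ← h3,
      ← h2]
    congr 1
    omega

/-- divergence predicate -/
def DV (k k' e : ℕ) : Prop :=
  (∀ t, t < e → U (lA k + t) = U (lA k' + t)) ∧ U (lA k + e) ≠ U (lA k' + e)

/-- length of the common beginning of gap words number `k` and `k'` (with what follows) -/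
def Ef (k k' : ℕ) : ℕ := if k = 0 ∧ k' = 1 then 1 else eE k

lemma U_zero : U 0 = 4 := by
  have h := U_cp 0
  rwa [show cp 0 0 = 0 by simp [cp, cpos]] at h

/-- letters of a short gap followed by the letter `4` -/
lemma U_gap4 (i t : ℕ) (hi : i < 10) (ht : t < (gap i ++ [4]).length) :
    U (lA i + t) = (gap i ++ [4])[t] := by
  rcases Nat.lt_or_ge t (gap i).length with h | h
  · rw [U_gapA i t hi h, List.getElem_append_left h]
  · have ht' : t = (gap i).length := by simp at ht; omega
    have h1 := UP i 0 (by have := lA_ge i; omega)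
    rw [U_zero, Nat.add_zero] at h1
    have hl := gap_len i hi
    rw [List.getElem_append_right h]
    simp only [List.getElem_singleton]
    rw [ht', hl]
    exact h1

/-- decidable test for the base case -/
def tst (k k' e : ℕ) : Bool :=
  decide (e < (gap k ++ [4]).length) && decide (e < (gap k' ++ [4]).length) &&
  (List.range e).all (fun t => (gap k ++ [4]).getD t 0 == (gap k' ++ [4]).getD t 0) &&
  ((gap k ++ [4]).getD e 0 != (gap k' ++ [4]).getD e 0)

lemma tst_sound (k k' e : ℕ) (hk : k < 10) (hk' : k' < 10) (h : tst k k' e = true) :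
    DV k k' e := by
  unfold tst at h
  simp only [Bool.and_eq_true, decide_eq_true_eq, List.all_eq_true, List.mem_range,
    beq_iff_eq, bne_iff_ne] at h
  obtain ⟨⟨⟨h1, h2⟩, h3⟩, h4⟩ := h
  constructor
  · intro t ht
    have := h3 t ht
    rw [List.getD_eq_getElem _ _ (by omega), List.getD_eq_getElem _ _ (by omega)] at this
    rw [U_gap4 k t hk (by omega), U_gap4 k' t hk' (by omega)]
    exact this
  · rw [List.getD_eq_getElem _ _ h1, List.getD_eq_getElem _ _ h2] at h4
    rw [U_gap4 k e hk h1, U_gap4 k' e hk' h2]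
    exact h4

lemma DV_base (k k' : ℕ) (h : k < k') (hk' : k' < 10) : DV k k' (Ef k k') := by
  have hvalE := valE
  obtain ⟨e0, e1, e2, e3, e4, e5, e6, e7, e8⟩ := hvalE
  interval_cases k' <;> interval_cases k <;>
    (apply tst_sound _ _ _ (by norm_num) (by norm_num)
     unfold Ef
     simp only [e0, e1, e2, e3, e4, e5, e6, e7, e8]
     decide)

theorem DV_all (k' : ℕ) : ∀ k, k < k' → k' ≤ k + 9 → DV k k' (Ef k k') := by
  induction k' using Nat.strong_induction_on with
  | _ k' ih =>
    intro k h1 h2
    rcases Nat.lt_or_ge k' 10 with h | h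
    · exact DV_base k k' h1 h
    obtain ⟨l, rfl⟩ : ∃ l, k' = l + 10 := ⟨k' - 10, by omega⟩
    have hk : k ≠ 0 := by omega
    have hE : Ef k (l + 10) = eE k := by
      unfold Ef; rw [if_neg (by omega)]
    rw [hE]
    have G1 : ∀ t, t < lG (l + 9) → U (lA (l + 10) + t) = U (lA (l + 9) + t) :=
      fun t ht => isSysU.G1 l t ht
    have G2 : ∀ t, t < lA l → U (lA (l + 10) + lG (l + 9) + t) = U t :=
      fun t ht => isSysU.G2 l t ht
    have G3 : ∀ t, t < lG (l + 9) →
        U (lA (l + 10) + lG (l + 9) + lA l + t) = U (lA (l + 9) + t) :=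
      fun t ht => isSysU.G3 l t ht
    have hA := lA_lt (show l < l + 9 by omega)
    -- common text
    have hc : ∀ t, t < lG (l + 9) + lA l → U (lA (l + 10) + t) = U (lA (l + 9) + t) := by
      intro t ht
      rcases Nat.lt_or_ge t (lG (l + 9)) with c1 | c1
      · exact G1 t c1
      · have c2 := G2 (t - lG (l + 9)) (by omega)
        have c3 := UP (l + 9) (t - lG (l + 9)) (by omega)
        rw [show lA (l + 10) + lG (l + 9) + (t - lG (l + 9)) = lA (l + 10) + t by omega] at c2
        rw [show lA (l + 9) + lG (l + 9) + (t - lG (l + 9)) = lA (l + 9) + t by omega] at c3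
        rw [c2, c3]
    rcases Nat.lt_or_ge k (l + 9) with h3 | h3
    · have h4 := ih (l + 9) (by omega) k h3 (by omega)
      have hE' : Ef k (l + 9) = eE k := by
        unfold Ef; rw [if_neg (by omega)]
      rw [hE'] at h4
      have h5 : eE k < lG (l + 9) + lA l := by
        have := eE_le' k (l + 9 - k) (by omega)
        rw [show k + (l + 9 - k) = l + 9 by omega] at this
        have := lA_ge l
        omega
      constructor
      · intro t ht
        rw [hc t (by omega)]
        exact h4.1 t ht
      · rw [hc _ h5]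
        exact h4.2
    · obtain rfl : k = l + 9 := by omega
      have h4 := ih (l + 9) (by omega) l (by omega) (by omega)
      have hE' : Ef l (l + 9) = eE l := by
        unfold Ef; rw [if_neg (by omega)]
      rw [hE'] at h4
      have h5 := I2 l
      have h6 := eE_rough l
      have h7 := lA_ge l
      have hL : ∀ r, r < lG (l + 9) → U (lA (l + 10) + (lG (l + 9) + lA l + r))
          = U (lA (l + 9) + r) := by
        intro r hr
        rw [← G3 r hr]; congr 1; omega
      have hR : ∀ r, lA l + r < lA (l + 9) → U (lA (l + 9) + (lG (l + 9) + lA l + r))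
          = U (lA l + r) := by
        intro r hr
        rw [← UP (l + 9) (lA l + r) hr]; congr 1; omega
      rw [eE_add]
      constructor
      · intro t ht
        rcases Nat.lt_or_ge t (lG (l + 9) + lA l) with c1 | c1
        · exact (hc t c1).symm
        · have c2 := h4.1 (t - (lG (l + 9) + lA l)) (by omega)
          have c3 := hL (t - (lG (l + 9) + lA l)) (by omega)
          have c4 := hR (t - (lG (l + 9) + lA l)) (by omega)
          rw [show lG (l + 9) + lA l + (t - (lG (l + 9) + lA l)) = t by omega] at c3 c4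
          rw [c3, c4]; exact c2
      · rw [hL _ (by omega), hR _ (by omega)]
        exact h4.2

end Run7.h796.Rep
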