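import Pool.Agent.Run7.h796.Word

/-!
Inequalities between the length sequences.
-/

namespace Run7.h796.Rep

set_option linter.unusedSimpArgs false

lemma crit (m : ℕ) (t : ℕ → ℤ)
    (hrec : ∀ j, t (j + m + 2) = 4 * t (j + m + 1) - 4 * t (j + m) + t j)
    (h0 : ∀ j, j ≤ m → 0 ≤ t j) (h1 : 2 * t m ≤ t (m + 1)) : ∀ j, 0 ≤ t j := by
  have key : ∀ k, (∀ j, j ≤ k + m → 0 ≤ t j) ∧ 2 * t (k + m) ≤ t (k + m + 1) := by
    intro k
    induction k with
    | zero =>
      refine ⟨?_, ?_⟩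
      · intro j hj; exact h0 j (by omega)
      · simpa using h1
    | succ k ih =>
      obtain ⟨ih1, ih2⟩ := ih
      have h2 := hrec k
      have h3 := ih1 k (by omega)
      have h4 := ih1 (k + m) (by omega)
      refine ⟨?_, ?_⟩
      · intro j hj
        rcases Nat.lt_or_ge j (k + m + 1) with h5 | h5
        · exact ih1 j (by omega)
        · obtain rfl : j = k + m + 1 := by omega
          linarith
      · rw [show k + 1 + m = k + m + 1 by ring]
        rw [show k + m + 1 + 1 = k + m + 2 by ring]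
        linarith
  intro j
  exact (key j).1 j (by omega)

lemma lA_succ (l : ℕ) : lA (l + 1) = 2 * lA l + lG l := lenA_succ 1 L10 l

lemma lG_add (l : ℕ) : lG (l + 10) = 2 * lG (l + 9) + lA l := isLenU.hg l

lemma lA_rec (j : ℕ) : (lA (j + 11) : ℤ) = 4 * lA (j + 10) - 4 * lA (j + 9) + lA j := by
  have h1 := lA_succ (j + 10)
  have h2 := lA_succ (j + 9)
  have h3 := lG_add j
  rw [show j + 10 + 1 = j + 11 by ring] at h1
  rw [show j + 9 + 1 = j + 10 by ring] at h2
  omega

lemma lG_rec (j : ℕ) : (lG (j + 11) : ℤ) = 4 * lG (j + 10) - 4 * lG (j + 9) + lG j := by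
  have h1 := lG_add (j + 1)
  have h2 := lG_add j
  have h3 := lA_succ j
  rw [show j + 1 + 10 = j + 11 by ring, show j + 1 + 9 = j + 10 by ring] at h1
  omega

lemma valA :
    lA 0 = 1 ∧ lA 1 = 3 ∧ lA 2 = 8 ∧ lA 3 = 16 ∧ lA 4 = 34 ∧ lA 5 = 69 ∧ lA 6 = 141 ∧
    lA 7 = 287 ∧ lA 8 = 584 ∧ lA 9 = 1186 ∧ lA 10 = 2407 ∧ lA 11 = 4885 ∧ lA 12 = 9915 ∧
    lA 13 = 20128 ∧ lA 14 = 40868 ∧ lA 15 = 82994 ∧ lA 16 = 168573 ∧ lA 17 = 342457 ∧
    lA 18 = 695823 ∧ lA 19 = 1414048 := by
  decide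

lemma valG :
    lG 0 = 1 ∧ lG 1 = 2 ∧ lG 2 = 0 ∧ lG 3 = 2 ∧ lG 4 = 1 ∧ lG 5 = 3 ∧ lG 6 = 5 ∧ lG 7 = 10 ∧
    lG 8 = 18 ∧ lG 9 = 35 ∧ lG 10 = 71 ∧ lG 11 = 145 ∧ lG 12 = 298 ∧ lG 13 = 612 ∧
    lG 14 = 1258 ∧ lG 15 = 2585 ∧ lG 16 = 5311 ∧ lG 17 = 10909 ∧ lG 18 = 22402 ∧
    lG 19 = 45990 ∧ lG 20 = 94387 ∧ lG 21 = 193659 ∧ lG 22 = 397233 ∧ lG 23 = 814594 ∧
    lG 24 = 1670056 ∧ lG 25 = 3423106 ∧ lG 26 = 7014785 ∧ lG 27 = 14372027 ∧ lG 28 = 29439877 := by
  decide

/-- the lengths of the common beginnings -/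
def eE (k : ℕ) : ℕ :=
  if h : k < 9 then [0, 0, 0, 1, 1, 2, 4, 9, 18].getD k 0
  else lG k + lA (k - 9) + eE (k - 9)
termination_by k

lemma eE_add (k : ℕ) : eE (k + 9) = lG (k + 9) + lA k + eE k := by
  rw [eE, dif_neg (by omega), Nat.add_sub_cancel]

lemma valE : eE 0 = 0 ∧ eE 1 = 0 ∧ eE 2 = 0 ∧ eE 3 = 1 ∧ eE 4 = 1 ∧ eE 5 = 2 ∧ eE 6 = 4 ∧
    eE 7 = 9 ∧ eE 8 = 18 := by
  refine ⟨?_, ?_, ?_, ?_, ?_, ?_, ?_, ?_, ?_⟩ <;> (rw [eE]; simp)

lemma lA_ge (l : ℕ) : l + 1 ≤ lA l := by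
  induction l with
  | zero => rw [lA_zero]
  | succ l ih => rw [lA_succ]; omega

lemma lA_mono {k l : ℕ} (h : k ≤ l) : lA k ≤ lA l := by
  induction l, h using Nat.le_induction with
  | base => exact le_rfl
  | succ l _ ih => rw [lA_succ]; omega

lemma lA_lt {k l : ℕ} (h : k < l) : 2 * lA k ≤ lA l := by
  have h1 := lA_mono (show k + 1 ≤ l from h)
  have h2 := lA_succ k
  omega

lemma ineq1 (k : ℕ) : 17 * lG (k + 9) + 18 * lA k ≤ lA (k + 9) := by
  have h : (0 : ℤ) ≤ (lA (k + 9) : ℤ) - 17 * lG (k + 9) - 18 * lA k :=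
    crit 9 (fun k => (lA (k + 9) : ℤ) - 17 * lG (k + 9) - 18 * lA k) (by
    intro j
    have e1 := lA_rec (j + 9)
    have e2 := lG_rec (j + 9)
    have e3 := lA_rec j
    have e4 := lG_rec (j + 18)
    simp only [show j + 9 + 2 = j + 11 by ring, show j + 9 + 1 = j + 10 by ring,
      show j + 10 + 9 = j + 19 by ring, show j + 11 + 9 = j + 20 by ring,
      show j + 9 + 9 = j + 18 by ring, show j + 9 + 10 = j + 19 by ring,
      show j + 9 + 11 = j + 20 by ring, show j + 18 + 9 = j + 27 by ring,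
      show j + 18 + 10 = j + 28 by ring, show j + 18 + 11 = j + 29 by ring,
      show j + 9 + 18 = j + 27 by ring,
      show j + 10 + 18 = j + 28 by ring, show j + 11 + 18 = j + 29 by ring]
      at e1 e2 e3 e4 ⊢
    linarith) (by
    intro j hj
    have hvalA := valA
    have hvalG := valG
    interval_cases j <;> simp only [Nat.zero_add, Nat.reduceAdd] <;> omega) (by
    have hvalA := valA
    have hvalG := valG
    simp only [Nat.reduceAdd]
    omega) k
  omega

lemma ineq2 (k : ℕ) : 16 * lA (k + 9) + 34 * lG (k + 9) + 37 * lA k ≤ lG (k + 18) := by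
  have h : (0 : ℤ) ≤ (lG (k + 18) : ℤ) - 16 * lA (k + 9) - 34 * lG (k + 9) - 37 * lA k :=
    crit 9 (fun k => (lG (k + 18) : ℤ) - 16 * lA (k + 9) - 34 * lG (k + 9) - 37 * lA k) (by
    intro j
    have e1 := lA_rec (j + 9)
    have e2 := lG_rec (j + 9)
    have e3 := lA_rec j
    have e4 := lG_rec (j + 18)
    simp only [show j + 9 + 2 = j + 11 by ring, show j + 9 + 1 = j + 10 by ring,
      show j + 10 + 9 = j + 19 by ring, show j + 11 + 9 = j + 20 by ring,
      show j + 9 + 9 = j + 18 by ring, show j + 9 + 10 = j + 19 by ring,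
      show j + 9 + 11 = j + 20 by ring, show j + 18 + 9 = j + 27 by ring,
      show j + 18 + 10 = j + 28 by ring, show j + 18 + 11 = j + 29 by ring,
      show j + 9 + 18 = j + 27 by ring,
      show j + 10 + 18 = j + 28 by ring, show j + 11 + 18 = j + 29 by ring]
      at e1 e2 e3 e4 ⊢
    linarith) (by
    intro j hj
    have hvalA := valA
    have hvalG := valG
    interval_cases j <;> simp only [Nat.zero_add, Nat.reduceAdd] <;> omega) (by
    have hvalA := valA
    have hvalG := valG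
    simp only [Nat.reduceAdd]
    omega) k
  omega

lemma ineq3 (k : ℕ) : 16 * lG (k + 9) + 37 * lA k ≤ lA (k + 9) := by
  have h : (0 : ℤ) ≤ (lA (k + 9) : ℤ) - 16 * lG (k + 9) - 37 * lA k :=
    crit 9 (fun k => (lA (k + 9) : ℤ) - 16 * lG (k + 9) - 37 * lA k) (by
    intro j
    have e1 := lA_rec (j + 9)
    have e2 := lG_rec (j + 9)
    have e3 := lA_rec j
    have e4 := lG_rec (j + 18)
    simp only [show j + 9 + 2 = j + 11 by ring, show j + 9 + 1 = j + 10 by ring,
      show j + 10 + 9 = j + 19 by ring, show j + 11 + 9 = j + 20 by ring,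
      show j + 9 + 9 = j + 18 by ring, show j + 9 + 10 = j + 19 by ring,
      show j + 9 + 11 = j + 20 by ring, show j + 18 + 9 = j + 27 by ring,
      show j + 18 + 10 = j + 28 by ring, show j + 18 + 11 = j + 29 by ring,
      show j + 9 + 18 = j + 27 by ring,
      show j + 10 + 18 = j + 28 by ring, show j + 11 + 18 = j + 29 by ring]
      at e1 e2 e3 e4 ⊢
    linarith) (by
    intro j hj
    have hvalA := valA
    have hvalG := valG
    interval_cases j <;> simp only [Nat.zero_add, Nat.reduceAdd] <;> omega) (by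
    have hvalA := valA
    have hvalG := valG
    simp only [Nat.reduceAdd]
    omega) k
  omega

lemma eE_rough (k : ℕ) : 16 * eE k ≤ lA k := by
  induction k using Nat.strong_induction_on with
  | _ k ih =>
    rcases Nat.lt_or_ge k 9 with h | h
    · have hvalE := valE
      have hvalA := valA
      interval_cases k <;> omega
    · obtain ⟨m, rfl⟩ : ∃ m, k = m + 9 := ⟨k - 9, by omega⟩
      have h1 := ih m (by omega)
      have h2 := ineq1 m
      rw [eE_add]
      omega

/-- (I2) -/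
lemma I2 (k : ℕ) : 16 * lA k + 34 * eE k ≤ lG (k + 9) := by
  rcases Nat.lt_or_ge k 9 with h | h
  · have hvalE := valE
    have hvalA := valA
    have hvalG := valG
    interval_cases k <;> simp only [Nat.zero_add, Nat.reduceAdd] <;> omega
  · obtain ⟨m, rfl⟩ : ∃ m, k = m + 9 := ⟨k - 9, by omega⟩
    have h1 := eE_rough m
    have h2 := ineq2 m
    rw [eE_add, show m + 9 + 9 = m + 18 by ring]
    omega

lemma lG_mono1 (k : ℕ) (hk : 4 ≤ k) : lG k ≤ lG (k + 1) := by
  rcases Nat.lt_or_ge k 9 with h | h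
  · have hvalG := valG
    interval_cases k <;> simp only [Nat.reduceAdd] <;> omega
  · obtain ⟨m, rfl⟩ : ∃ m, k = m + 9 := ⟨k - 9, by omega⟩
    have := lG_add m
    rw [show m + 9 + 1 = m + 10 by ring]
    omega

lemma lG_mono {k l : ℕ} (hk : 4 ≤ k) (h : k ≤ l) : lG k ≤ lG l := by
  induction l, h using Nat.le_induction with
  | base => exact le_rfl
  | succ l hl ih => exact ih.trans (lG_mono1 l (by omega))

/-- (I3) -/
lemma I3 (k : ℕ) : 34 * eE k ≤ lA k + 18 * lG k := by
  rcases Nat.lt_or_ge k 9 with h | h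
  · have hvalE := valE
    have hvalA := valA
    have hvalG := valG
    interval_cases k <;> omega
  · obtain ⟨m, rfl⟩ : ∃ m, k = m + 9 := ⟨k - 9, by omega⟩
    have h1 := eE_rough m
    have h2 := ineq3 m
    rw [eE_add]
    omega

/-- (I3') -/
lemma I3' (k i : ℕ) (hi : i ≤ 9) : 34 * eE k ≤ lA k + 18 * lG (k + i) := by
  rcases Nat.lt_or_ge k 4 with h | h
  · have hvalE := valE
    have hvalA := valA
    have hvalG := valG
    interval_cases k <;> interval_cases i <;>
      simp only [Nat.reduceAdd, Nat.zero_add, Nat.add_zero] <;> omega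
  · have h1 := I3 k
    have h2 := lG_mono h (show k ≤ k + i by omega)
    omega

/-- common beginnings are short -/
lemma eE_le (k : ℕ) : eE k ≤ lG (k + 1) := by
  rcases Nat.lt_or_ge k 9 with h | h
  · have hvalE := valE
    have hvalG := valG
    interval_cases k <;> simp only [Nat.reduceAdd, Nat.zero_add] <;> omega
  · obtain ⟨m, rfl⟩ : ∃ m, k = m + 9 := ⟨k - 9, by omega⟩
    have h1 := I2 m
    rw [eE_add, show m + 9 + 1 = m + 10 by ring, lG_add]
    omega

lemma eE_le' (k i : ℕ) (hi : 1 ≤ i) : eE k ≤ lG (k + i) := by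
  rcases Nat.lt_or_ge k 3 with h | h
  · have hvalE := valE
    have : eE k = 0 := by interval_cases k <;> omega
    omega
  · exact (eE_le k).trans (lG_mono (by omega) (by omega))

lemma eE_lt (l m : ℕ) (hm : m ≤ 8) : eE (l + m) < lG (l + m) + lA l := by
  have hl := lA_ge l
  rcases Nat.lt_or_ge (l + m) 9 with h | h
  · have hvalE := valE
    have hvalG := valG
    have : eE (l + m) ≤ lG (l + m) := by
      generalize l + m = k at h
      interval_cases k <;> omega
    omega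
  · obtain ⟨k, hk⟩ : ∃ k, l + m = k + 9 := ⟨l + m - 9, by omega⟩
    have h1 := eE_rough k
    have h2 := lA_lt (show k < l by omega)
    have h3 := lA_ge k
    rw [hk, eE_add]
    omega

lemma lG_le (k : ℕ) : lG k ≤ lA k := by
  rcases Nat.lt_or_ge k 9 with h | h
  · have hvalA := valA
    have hvalG := valG
    interval_cases k <;> omega
  · obtain ⟨m, rfl⟩ : ∃ m, k = m + 9 := ⟨k - 9, by omega⟩
    have h2 := ineq1 m
    omega

end Run7.h796.Rep
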