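import Pool.Agent.Run7.h796.Levels

/-!
The length sequences, computed by iteration of a state.
-/

namespace Run7.h796.Rep

/-- one step of the length recursion -/
def stp (s : ℕ × List ℕ) : ℕ × List ℕ :=
  (2 * s.1 + s.2.getD 0 0, s.2.tail ++ [2 * s.2.getD (s.2.length - 1) 0 + s.1])

def st (a0 : ℕ) (L : List ℕ) (k : ℕ) : ℕ × List ℕ := stp^[k] (a0, L)

def lenA (a0 : ℕ) (L : List ℕ) (k : ℕ) : ℕ := (st a0 L k).1

def lenG (a0 : ℕ) (L : List ℕ) (k : ℕ) : ℕ := (st a0 L k).2.getD 0 0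

lemma st_succ (a0 : ℕ) (L : List ℕ) (k : ℕ) : st a0 L (k + 1) = stp (st a0 L k) := by
  unfold st; rw [Function.iterate_succ_apply']

lemma st_len (a0 : ℕ) (L : List ℕ) (hL : 1 ≤ L.length) (k : ℕ) :
    (st a0 L k).2.length = L.length := by
  induction k with
  | zero => rfl
  | succ k ih =>
    rw [st_succ, stp]
    simp
    omega

lemma st_get (a0 : ℕ) (L : List ℕ) (hL : 1 ≤ L.length) (k i : ℕ) (hi : i + 1 < L.length) :
    (st a0 L (k + 1)).2.getD i 0 = (st a0 L k).2.getD (i + 1) 0 := by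
  have h := st_len a0 L hL k
  rw [st_succ, stp]
  simp only
  generalize 2 * (st a0 L k).2.getD ((st a0 L k).2.length - 1) 0 + (st a0 L k).1 = z
  rw [List.getD_eq_getElem _ _ (by simp; omega), List.getD_eq_getElem _ _ (by omega),
    List.getElem_append_left (by simp; omega), List.getElem_tail]

lemma st_last (a0 : ℕ) (L : List ℕ) (hL : 1 ≤ L.length) (k : ℕ) :
    (st a0 L (k + 1)).2.getD (L.length - 1) 0
      = 2 * (st a0 L k).2.getD (L.length - 1) 0 + (st a0 L k).1 := by
  have h := st_len a0 L hL k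
  rw [st_succ, stp]
  simp only
  rw [List.getD_eq_getElem _ _ (by simp; omega),
    List.getElem_append_right (by simp; omega)]
  simp [h]

lemma st_lenG (a0 : ℕ) (L : List ℕ) (hL : 1 ≤ L.length) (i : ℕ) :
    ∀ k, i < L.length → (st a0 L k).2.getD i 0 = lenG a0 L (k + i) := by
  induction i with
  | zero => intro k _; rfl
  | succ i ih =>
    intro k hi
    rw [← st_get a0 L hL k i hi, ih (k + 1) (by omega)]
    congr 1; omega

lemma lenA_succ (a0 : ℕ) (L : List ℕ) (k : ℕ) :
    lenA a0 L (k + 1) = 2 * lenA a0 L k + lenG a0 L k := by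
  unfold lenA lenG
  rw [st_succ]; rfl

lemma lenG_add (a0 : ℕ) (L : List ℕ) (hL : 1 ≤ L.length) (k : ℕ) :
    lenG a0 L (k + L.length) = 2 * lenG a0 L (k + L.length - 1) + lenA a0 L k := by
  have h1 := st_last a0 L hL k
  rw [st_lenG a0 L hL (L.length - 1) (k + 1) (by omega),
    st_lenG a0 L hL (L.length - 1) k (by omega)] at h1
  rw [show k + 1 + (L.length - 1) = k + L.length by omega,
    show k + (L.length - 1) = k + L.length - 1 by omega] at h1
  exact h1

lemma lenG_small (a0 : ℕ) (L : List ℕ) (hL : 1 ≤ L.length) (i : ℕ) (hi : i < L.length) :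
    lenG a0 L i = L[i] := by
  have h1 := st_lenG a0 L hL i 0 hi
  rw [Nat.zero_add] at h1
  rw [← h1]
  change L.getD i 0 = _
  rw [List.getD_eq_getElem _ _ hi]

lemma lenA_zero (a0 : ℕ) (L : List ℕ) : lenA a0 L 0 = a0 := rfl

theorem isLen_len (a0 : ℕ) (L : List ℕ) (hL : 2 ≤ L.length) :
    IsLen L.length (fixSeq L.length) (tau L.length) (lenA a0 L) (lenG a0 L) where
  fix := isFix_fixSeq _ hL
  hn := hL
  ha := lenA_succ a0 L
  hg := lenG_add a0 L (by omega)

end Run7.h796.Rep
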