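import Pool.Agent.Run7.h796.VLocal

/-!
Hierarchical structure of a sequence that is coded by the fixed point.
-/

namespace Run7.h796.Rep

/-- starting position of block number `j` of level `l` -/
def cpos (a g v : ℕ → ℕ) (l j : ℕ) : ℕ := ∑ i ∈ Finset.range j, (a l + g (l + v i))

/-- The length recursions. -/
structure IsLen (n : ℕ) (v τ : ℕ → ℕ) (a g : ℕ → ℕ) : Prop where
  fix : IsFix n v τ
  hn : 2 ≤ n
  ha : ∀ l, a (l + 1) = 2 * a l + g l
  hg : ∀ l, g (l + n) = 2 * g (l + n - 1) + a l

/-- A sequence `u` with a hierarchical structure governed by the fixed point `v`. -/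
structure IsSys {α : Type} (n : ℕ) (v τ : ℕ → ℕ) (u : ℕ → α) (a g : ℕ → ℕ) : Prop
    extends IsLen n v τ a g where
  T1 : ∀ j t, t < a 0 → u (cpos a g v 0 j + t) = u t
  T2 : ∀ j t, t < g (v j) → u (cpos a g v 0 j + a 0 + t) = u (a (v j) + t)
  pal0 : ∀ t, t < a 0 → u t = u (a 0 - 1 - t)
  palG : ∀ k, k < n → ∀ t, t < g k → u (a k + t) = u (a k + g k - 1 - t)

lemma c_zero {a g v : ℕ → ℕ} (l : ℕ) : cpos a g v l 0 = 0 := by simp [cpos]

lemma c_succ {a g v : ℕ → ℕ} (l j : ℕ) :
    cpos a g v l (j + 1) = cpos a g v l j + (a l + g (l + v j)) := by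
  simp [cpos, Finset.sum_range_succ]

namespace IsLen

variable {n : ℕ} {v τ : ℕ → ℕ} {a g : ℕ → ℕ}

lemma c_up (h : IsLen n v τ a g) (l j : ℕ) : cpos a g v (l + 1) j = cpos a g v l (τ j) := by
  induction j with
  | zero => rw [c_zero, h.fix.t0, c_zero]
  | succ j ih =>
    have hn := h.hn
    rw [c_succ, ih]
    rcases h.fix.right j with ⟨h1, h2, h3⟩ | ⟨h1, h2, h3, h4⟩
    · rw [h.fix.ts2 h1, c_succ, c_succ, h.fix.a0, h2, h.ha,
        show l + (v j + 1) = l + 1 + v j by ring]
      simp only [Nat.add_zero]
      omega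
    · rw [h.fix.ts1 h1, c_succ, c_succ, c_succ, h.fix.a0, h2, h3, h.ha, h1]
      have h5 := h.hg l
      rw [show l + 1 + (n - 1) = l + n by omega, h5,
        show l + (n - 1) = l + n - 1 by omega]
      simp only [Nat.add_zero]
      omega

lemma c_one (h : IsLen n v τ a g) (l : ℕ) : cpos a g v l 1 = a l + g l := by
  have := c_succ (a := a) (g := g) (v := v) l 0
  rw [c_zero, h.fix.v0] at this
  simpa using this

lemma c_pow (h : IsLen n v τ a g) (i : ℕ) (hi : i ≤ n) :
    ∀ l, cpos a g v l (2 ^ i - 1) + a l = a (l + i) := by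
  induction i with
  | zero => intro l; simp [c_zero]
  | succ i ih =>
    intro l
    have h1 := ih (by omega) (l + 1)
    rw [h.c_up, (h.fix.small i (by omega)).2.2 _ le_rfl] at h1
    have hp : 1 ≤ 2 ^ i := Nat.one_le_two_pow
    have hp2 : 2 ^ (i + 1) = 2 * 2 ^ i := by ring
    rw [show 2 ^ (i + 1) - 1 = 2 * (2 ^ i - 1) + 1 by omega, c_succ]
    have h2 : v (2 * (2 ^ i - 1)) = 0 := h.fix.even_zero h.hn _ (by
      have : 2 ^ (i + 1) ≤ 2 ^ n := Nat.pow_le_pow_right (by norm_num) hi
      omega)
    rw [h2, Nat.add_zero]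
    have h3 := h.ha l
    rw [show l + (i + 1) = l + 1 + i by ring, ← h1]
    omega

end IsLen

namespace IsSys

variable {α : Type} {n : ℕ} {v τ : ℕ → ℕ} {u : ℕ → α} {a g : ℕ → ℕ}

/-- Level statements. -/
def T1l (v : ℕ → ℕ) (u : ℕ → α) (a g : ℕ → ℕ) (l : ℕ) : Prop :=
  ∀ j t, t < a l → u (cpos a g v l j + t) = u t

def T2l (v : ℕ → ℕ) (u : ℕ → α) (a g : ℕ → ℕ) (l : ℕ) : Prop :=
  ∀ j t, t < g (l + v j) → u (cpos a g v l j + a l + t) = u (a (l + v j) + t)

lemma levels (h : IsSys n v τ u a g) : ∀ l, T1l v u a g l ∧ T2l v u a g l := by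
  intro l
  induction l with
  | zero =>
    refine ⟨h.T1, ?_⟩
    intro j t ht
    rw [Nat.zero_add] at ht ⊢
    exact h.T2 j t ht
  | succ l ih =>
    obtain ⟨ih1, ih2⟩ := ih
    have hn := h.hn
    have key1 : ∀ t, t < a l → u (a l + g l + t) = u t := by
      intro t ht
      have := ih1 1 t ht
      rwa [h.c_one] at this
    refine ⟨?_, ?_⟩
    · intro j t ht
      rw [h.c_up]
      rw [h.ha] at ht
      rcases Nat.lt_or_ge t (a l) with h1 | h1
      · exact ih1 _ t h1
      rcases Nat.lt_or_ge t (a l + g l) with h2 | h2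
      · have h3 := ih2 (τ j) (t - a l) (by rw [h.fix.a0, Nat.add_zero]; omega)
        rw [h.fix.a0, Nat.add_zero] at h3
        rw [show cpos a g v l (τ j) + a l + (t - a l) = cpos a g v l (τ j) + t by omega,
          show a l + (t - a l) = t by omega] at h3
        exact h3
      · have h3 := ih1 (τ j + 1) (t - (a l + g l)) (by omega)
        rw [c_succ, h.fix.a0, Nat.add_zero,
          show cpos a g v l (τ j) + (a l + g l) + (t - (a l + g l)) = cpos a g v l (τ j) + t
            by omega] at h3
        rw [h3]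
        have h4 := key1 (t - (a l + g l)) (by omega)
        rw [show a l + g l + (t - (a l + g l)) = t by omega] at h4
        exact h4.symm
    · -- second part
      have second : ∀ j t, v j = n - 1 → t < g (l + n) →
          u (cpos a g v (l + 1) j + a (l + 1) + t) =
            if t < g (l + n - 1) then u (a (l + n - 1) + t)
            else if t < g (l + n - 1) + a l then u (t - g (l + n - 1))
            else u (a (l + n - 1) + (t - (g (l + n - 1) + a l))) := by
        intro j t hj ht
        rcases h.fix.right j with ⟨h1, _, _⟩ | ⟨_, h2, h3, _⟩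
        · exact absurd hj h1
        have hln : l + (n - 1) = l + n - 1 := by omega
        have e1 : cpos a g v (l + 1) j + a (l + 1) = cpos a g v l (τ j + 1) + a l := by
          rw [h.c_up, c_succ, h.fix.a0, h.ha, Nat.add_zero]; ring
        have hg := h.hg l
        rw [e1]
        split_ifs with c1 c2
        · have h5 := ih2 (τ j + 1) t (by rw [h2, hln]; exact c1)
          rw [h2, hln] at h5
          exact h5
        · have h5 := ih1 (τ j + 2) (t - g (l + n - 1)) (by omega)
          rw [c_succ, h2, hln,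
            show cpos a g v l (τ j + 1) + (a l + g (l + n - 1)) + (t - g (l + n - 1))
              = cpos a g v l (τ j + 1) + a l + t by omega] at h5
          exact h5
        · have h5 := ih2 (τ j + 2) (t - (g (l + n - 1) + a l)) (by rw [h3, hln]; omega)
          rw [c_succ, h2, h3, hln,
            show cpos a g v l (τ j + 1) + (a l + g (l + n - 1)) + a l + (t - (g (l + n - 1) + a l))
              = cpos a g v l (τ j + 1) + a l + t by omega] at h5
          exact h5
      intro j t ht
      by_cases hj : v j = n - 1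
      · have hln : l + 1 + (n - 1) = l + n := by omega
        rw [hj, hln] at ht ⊢
        rw [second j t hj ht]
        have h6 := h.c_pow (n - 1) (by omega) (l + 1)
        rw [hln] at h6
        have h7 := second (2 ^ (n - 1) - 1) t (h.fix.small (n - 1) le_rfl).2.1 ht
        rw [h6] at h7
        exact h7.symm
      · have h1 := h.fix.ts2 hj
        have h2 := h.fix.a1' hj
        have e1 : cpos a g v (l + 1) j + a (l + 1) = cpos a g v l (τ j + 1) + a l := by
          rw [h.c_up, c_succ, h.fix.a0, h.ha, Nat.add_zero]; ring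
        have h5 := ih2 (τ j + 1) t (by rw [h2, show l + (v j + 1) = l + 1 + v j by ring]; exact ht)
        rw [h2, show l + (v j + 1) = l + 1 + v j by ring] at h5
        rw [e1]
        exact h5

lemma L1 (h : IsSys n v τ u a g) (l j t : ℕ) (ht : t < a l) : u (cpos a g v l j + t) = u t :=
  (h.levels l).1 j t ht

lemma L2 (h : IsSys n v τ u a g) (l j t : ℕ) (ht : t < g (l + v j)) :
    u (cpos a g v l j + a l + t) = u (a (l + v j) + t) :=
  (h.levels l).2 j t ht

lemma P1 (h : IsSys n v τ u a g) (l t : ℕ) (ht : t < a l) : u (a l + g l + t) = u t := by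
  have := h.L1 l 1 t ht
  rwa [h.c_one] at this

lemma G1 (h : IsSys n v τ u a g) (l t : ℕ) (ht : t < g (l + n - 1)) :
    u (a (l + n) + t) = u (a (l + n - 1) + t) := by
  have h1 := h.c_pow n le_rfl l
  have h2 := h.fix.dbl h.hn
  have hn := h.hn
  have h3 := h.L2 l (2 ^ n - 1) t (by rw [h2.2.1, show l + (n - 1) = l + n - 1 by omega]; exact ht)
  rw [h2.2.1, show l + (n - 1) = l + n - 1 by omega, h1] at h3
  exact h3

lemma G2 (h : IsSys n v τ u a g) (l t : ℕ) (ht : t < a l) :
    u (a (l + n) + g (l + n - 1) + t) = u t := by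
  have h1 := h.c_pow n le_rfl l
  have h2 := h.fix.dbl h.hn
  have hn := h.hn
  have h3 := h.L1 l (2 ^ n - 1 + 1) t ht
  rw [c_succ, h2.2.1, show l + (n - 1) = l + n - 1 by omega, ← Nat.add_assoc, h1] at h3
  exact h3

lemma G3 (h : IsSys n v τ u a g) (l t : ℕ) (ht : t < g (l + n - 1)) :
    u (a (l + n) + g (l + n - 1) + a l + t) = u (a (l + n - 1) + t) := by
  have h1 := h.c_pow n le_rfl l
  have h2 := h.fix.dbl h.hn
  have hn := h.hn
  have hp : 1 ≤ 2 ^ n := Nat.one_le_two_pow
  have h4 : v (2 ^ n - 1 + 1) = n - 1 := by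
    rw [show 2 ^ n - 1 + 1 = 2 ^ n by omega]; exact h2.2.2.1
  have h3 := h.L2 l (2 ^ n - 1 + 1) t (by rw [h4, show l + (n - 1) = l + n - 1 by omega]; exact ht)
  rw [c_succ, h4, h2.2.1, show l + (n - 1) = l + n - 1 by omega,
    ← Nat.add_assoc, h1] at h3
  exact h3

/-- palindromes -/
lemma PL (h : IsSys n v τ u a g) : ∀ l,
    (∀ t, t < a l → u t = u (a l - 1 - t)) ∧
    (∀ k, k < l + n → ∀ t, t < g k → u (a k + t) = u (a k + g k - 1 - t)) := by
  intro l
  induction l with
  | zero =>
    refine ⟨h.pal0, ?_⟩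
    intro k hk
    exact h.palG k (by omega)
  | succ l ih =>
    obtain ⟨ih1, ih2⟩ := ih
    have hn := h.hn
    refine ⟨?_, ?_⟩
    · intro t ht
      have ha := h.ha l
      rw [ha] at ht ⊢
      have hG := ih2 l (by omega)
      rcases Nat.lt_or_ge t (a l) with h1 | h1
      · have h2 := h.P1 l (a l - 1 - t) (by omega)
        rw [show a l + g l + (a l - 1 - t) = 2 * a l + g l - 1 - t by omega] at h2
        rw [h2, ih1 t h1]
      rcases Nat.lt_or_ge t (a l + g l) with h2 | h2
      · have h3 := hG (t - a l) (by omega)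
        rw [show a l + (t - a l) = t by omega,
          show a l + g l - 1 - (t - a l) = 2 * a l + g l - 1 - t by omega] at h3
        exact h3
      · have h3 := h.P1 l (t - (a l + g l)) (by omega)
        rw [show a l + g l + (t - (a l + g l)) = t by omega] at h3
        rw [h3, ih1 _ (by omega)]
        congr 1
        omega
    · intro k hk t ht
      rcases Nat.lt_or_ge k (l + n) with h1 | h1
      · exact ih2 k h1 t ht
      · obtain rfl : k = l + n := by omega
        have hg := h.hg l
        rw [hg] at ht ⊢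
        set b := g (l + n - 1) with hb
        have hGp := ih2 (l + n - 1) (by omega)
        have hA : ∀ t, t < b → u (a (l + n) + t) = u (a (l + n) + b + a l + (b - 1 - t)) := by
          intro t ht
          rw [h.G1 l t ht, h.G3 l (b - 1 - t) (by omega), hGp t ht]
          congr 1
          omega
        rcases Nat.lt_or_ge t b with h1 | h1
        · rw [hA t h1]; congr 1; omega
        rcases Nat.lt_or_ge t (b + a l) with h2 | h2
        · have h3 := h.G2 l (t - b) (by omega)
          have h4 := h.G2 l (a l - 1 - (t - b)) (by omega)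
          rw [show a (l + n) + b + (t - b) = a (l + n) + t by omega] at h3
          rw [show a (l + n) + b + (a l - 1 - (t - b)) = a (l + n) + (2 * b + a l) - 1 - t
            by omega] at h4
          rw [h3, h4]
          exact ih1 _ (by omega)
        · have h3 := hA (2 * b + a l - 1 - t) (by omega)
          rw [show a (l + n) + (2 * b + a l - 1 - t) = a (l + n) + (2 * b + a l) - 1 - t
            by omega, show a (l + n) + b + a l + (b - 1 - (2 * b + a l - 1 - t)) = a (l + n) + t
            by omega] at h3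
          exact h3.symm

lemma palP (h : IsSys n v τ u a g) (l t : ℕ) (ht : t < a l) : u t = u (a l - 1 - t) :=
  (h.PL l).1 t ht

lemma palGap (h : IsSys n v τ u a g) (k t : ℕ) (ht : t < g k) :
    u (a k + t) = u (a k + g k - 1 - t) :=
  (h.PL (k + 1)).2 k (by omega) t ht

end IsSys

end Run7.h796.Rep
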