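import Pool.Agent.Run7.h796.Upper

/-!
Lower bound for the asymptotic critical exponent of `fixSeq 9`.
-/

namespace Run7.h796.Rep

namespace IsSys

variable {α : Type} {n : ℕ} {v τ : ℕ → ℕ} {u : ℕ → α} {a g : ℕ → ℕ}

lemma a_mono (h : IsSys n v τ u a g) {k l : ℕ} (hkl : k ≤ l) : a k ≤ a l := by
  induction l, hkl using Nat.le_induction with
  | base => exact le_rfl
  | succ l _ ih => rw [h.ha]; omega

/-- text to the right of a canonical occurrence -/
lemma RT (h : IsSys n v τ u a g) (l j t : ℕ) (ht : t < g (l + v j) + a l) :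
    u (cpos a g v l j + a l + t) = u (a (l + v j) + t) := by
  rcases Nat.lt_or_ge t (g (l + v j)) with h0 | h0
  · exact h.L2 l j t h0
  · have h1 := h.L1 l (j + 1) (t - g (l + v j)) (by omega)
    rw [c_succ] at h1
    have h2 := h.P1 (l + v j) (t - g (l + v j)) (by
      have := h.a_mono (show l ≤ l + v j by omega)
      omega)
    rw [show cpos a g v l j + (a l + g (l + v j)) + (t - g (l + v j))
      = cpos a g v l j + a l + t by omega] at h1
    rw [show a (l + v j) + g (l + v j) + (t - g (l + v j)) = a (l + v j) + t by omega] at h2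
    rw [h1, h2]

/-- text to the left of a canonical occurrence, read backwards -/
lemma LT (h : IsSys n v τ u a g) (l j t : ℕ) (ht : t < g (l + v j) + a l) :
    u (cpos a g v l (j + 1) - 1 - t) = u (a (l + v j) + t) := by
  set x := v j with hx
  have hs := c_succ (a := a) (g := g) (v := v) l j
  rw [← hx] at hs
  rcases Nat.lt_or_ge t (g (l + x)) with h0 | h0
  · have h1 := h.L2 l j (g (l + x) - 1 - t) (by rw [← hx]; omega)
    rw [← hx] at h1
    have h2 := h.palGap (l + x) t h0
    rw [show cpos a g v l (j + 1) - 1 - t = cpos a g v l j + a l + (g (l + x) - 1 - t) by omega,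
      h1, h2]
    congr 1
    omega
  · have h1 := h.L1 l j (a l - 1 - (t - g (l + x))) (by omega)
    have h2 := h.P1 (l + x) (t - g (l + x)) (by
      have := h.a_mono (show l ≤ l + x by omega)
      omega)
    have h3 := h.palP l (t - g (l + x)) (by omega)
    rw [show cpos a g v l (j + 1) - 1 - t = cpos a g v l j + (a l - 1 - (t - g (l + x))) by omega,
      h1, ← h3, ← h2]
    congr 1
    omega

end IsSys

def L9 : List ℕ := [1, 1, 1, 1, 1, 1, 1, 1, 1]
def nA : ℕ → ℕ := lenA 0 L9
def nG : ℕ → ℕ := lenG 0 L9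

lemma isLen9 : IsLen 9 (fixSeq 9) (tau 9) nA nG := isLen_len 0 L9 (by decide)

lemma nG_small (i : ℕ) (hi : i < 9) : nG i = 1 := by
  have h := lenG_small 0 L9 (by decide) i hi
  unfold nG
  rw [h]
  interval_cases i <;> rfl

lemma nA_zero : nA 0 = 0 := rfl

lemma cpos9 (j : ℕ) : cpos nA nG (fixSeq 9) 0 j = j := by
  induction j with
  | zero => simp [cpos]
  | succ j ih =>
    rw [c_succ, ih, nA_zero, Nat.zero_add (fixSeq 9 j),
      nG_small _ (fixSeq_lt 9 (by norm_num) j)]

theorem isSys9 : IsSys 9 (fixSeq 9) (tau 9) (fixSeq 9) nA nG where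
  toIsLen := isLen9
  T1 := by
    intro j t ht
    rw [nA_zero] at ht
    omega
  T2 := by
    intro j t ht
    have hv := fixSeq_lt 9 (by norm_num) j
    rw [nG_small _ hv] at ht
    obtain rfl : t = 0 := by omega
    have h1 := isLen9.c_pow (fixSeq 9 j) (by omega) 0
    rw [cpos9, nA_zero, Nat.zero_add (fixSeq 9 j), Nat.add_zero] at h1
    rw [cpos9, nA_zero, Nat.add_zero, Nat.add_zero, ← h1]
    exact ((isLen9.fix.small (fixSeq 9 j) (by omega)).2.1).symm
  pal0 := by
    intro t ht
    rw [nA_zero] at ht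
    omega
  palG := by
    intro k hk t ht
    rw [nG_small k hk] at ht ⊢
    obtain rfl : t = 0 := by omega
    congr 1

lemma nA_succ (l : ℕ) : nA (l + 1) = 2 * nA l + nG l := isLen9.ha l

lemma nG_add (l : ℕ) : nG (l + 9) = 2 * nG (l + 8) + nA l := isLen9.hg l

/-- common beginnings -/
def nE (k : ℕ) : ℕ :=
  if h : k < 8 then 0 else nG k + nA (k - 8) + nE (k - 8)
termination_by k

lemma nE_add (k : ℕ) : nE (k + 8) = nG (k + 8) + nA k + nE k := by
  rw [nE, dif_neg (by omega), Nat.add_sub_cancel]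

lemma nE_small (k : ℕ) (hk : k < 8) : nE k = 0 := by
  rw [nE, dif_pos hk]

lemma nG_mono1 (k : ℕ) : nG k ≤ nG (k + 1) := by
  rcases Nat.lt_or_ge k 8 with h | h
  · rw [nG_small k (by omega), nG_small (k + 1) (by omega)]
  · obtain ⟨m, rfl⟩ : ∃ m, k = m + 8 := ⟨k - 8, by omega⟩
    have := nG_add m
    rw [show m + 8 + 1 = m + 9 by ring]
    omega

lemma nG_mono {k l : ℕ} (h : k ≤ l) : nG k ≤ nG l := by
  induction l, h using Nat.le_induction with
  | base => exact le_rfl
  | succ l hl ih => exact ih.trans (nG_mono1 l)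

lemma nG_pos (k : ℕ) : 1 ≤ nG k := by
  have := nG_mono (Nat.zero_le k)
  rw [nG_small 0 (by norm_num)] at this
  exact this

lemma nE_le (k : ℕ) : nE k ≤ nG (k + 1) := by
  induction k using Nat.strong_induction_on with
  | _ k ih =>
    rcases Nat.lt_or_ge k 8 with h | h
    · rw [nE_small k h]; omega
    · obtain ⟨m, rfl⟩ : ∃ m, k = m + 8 := ⟨k - 8, by omega⟩
      have h1 := ih m (by omega)
      have h2 := nG_mono (show m + 1 ≤ m + 8 by omega)
      have h3 := nG_add m
      rw [nE_add, show m + 8 + 1 = m + 9 by ring]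
      omega

lemma nAE (l m : ℕ) (h : l + 2 ≤ m) : nA l + nE l ≤ nA m := by
  have h1 := isSys9.a_mono h
  have h2 := nA_succ l
  have h3 := nA_succ (l + 1)
  rw [show l + 1 + 1 = l + 2 by ring] at h3
  have h4 := nE_le l
  omega

lemma nE_le' (l : ℕ) : nE l ≤ nG l + nA l := by
  rcases Nat.lt_or_ge l 8 with h | h
  · rw [nE_small l h]; omega
  · obtain ⟨m, rfl⟩ : ∃ m, l = m + 8 := ⟨l - 8, by omega⟩
    have h1 := nAE m (m + 8) (by omega)
    rw [nE_add]
    omega

/-- agreement of gap words -/
theorem AG (k' : ℕ) : ∀ k, k < k' → k' ≤ k + 8 → ∀ t, t < nE k →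
    fixSeq 9 (nA k + t) = fixSeq 9 (nA k' + t) := by
  induction k' using Nat.strong_induction_on with
  | _ k' ih =>
    intro k h1 h2 t ht
    rcases Nat.lt_or_ge k 8 with h | h
    · rw [nE_small k h] at ht; omega
    obtain ⟨l, rfl⟩ : ∃ l, k' = l + 9 := ⟨k' - 9, by omega⟩
    have G1 : ∀ t, t < nG (l + 8) → fixSeq 9 (nA (l + 9) + t) = fixSeq 9 (nA (l + 8) + t) :=
      fun t ht => isSys9.G1 l t ht
    have G2 : ∀ t, t < nA l → fixSeq 9 (nA (l + 9) + nG (l + 8) + t) = fixSeq 9 t :=
      fun t ht => isSys9.G2 l t ht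
    have G3 : ∀ t, t < nG (l + 8) →
        fixSeq 9 (nA (l + 9) + nG (l + 8) + nA l + t) = fixSeq 9 (nA (l + 8) + t) :=
      fun t ht => isSys9.G3 l t ht
    have hA := isSys9.a_mono (show l ≤ l + 8 by omega)
    have hc : ∀ t, t < nG (l + 8) + nA l →
        fixSeq 9 (nA (l + 9) + t) = fixSeq 9 (nA (l + 8) + t) := by
      intro t ht
      rcases Nat.lt_or_ge t (nG (l + 8)) with c1 | c1
      · exact G1 t c1
      · have c2 := G2 (t - nG (l + 8)) (by omega)
        have c3 := isSys9.P1 (l + 8) (t - nG (l + 8)) (by omega)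
        rw [show nA (l + 9) + nG (l + 8) + (t - nG (l + 8)) = nA (l + 9) + t by omega] at c2
        rw [show nA (l + 8) + nG (l + 8) + (t - nG (l + 8)) = nA (l + 8) + t by omega] at c3
        rw [c2, c3]
    rcases Nat.lt_or_ge k (l + 8) with h3 | h3
    · have h5 : nE k ≤ nG (l + 8) := (nE_le k).trans (nG_mono (by omega))
      rw [hc t (by omega)]
      exact ih (l + 8) (by omega) k h3 (by omega) t ht
    · obtain rfl : k = l + 8 := by omega
      rw [nE_add] at ht
      rcases Nat.lt_or_ge t (nG (l + 8) + nA l) with c1 | c1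
      · exact (hc t c1).symm
      · set r := t - (nG (l + 8) + nA l) with hr
        have h5 : nE l ≤ nG (l + 8) := (nE_le l).trans (nG_mono (by omega))
        have h6 := nAE l (l + 8) (by omega)
        have c3 := G3 r (by omega)
        have c4 := isSys9.P1 (l + 8) (nA l + r) (by omega)
        have c5 := ih (l + 8) (by omega) l (by omega) (by omega) r (by omega)
        rw [show nA (l + 9) + nG (l + 8) + nA l + r = nA (l + 9) + t by omega] at c3
        rw [show nA (l + 8) + nG (l + 8) + (nA l + r) = nA (l + 8) + t by omega] at c4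
        rw [c3, c4]
        exact c5

/-- the long repetition of level `l` -/
theorem run9 (l : ℕ) : ∃ s, ∀ i, s ≤ i →
    i + (nA l + nG (l + 8)) < s + (2 * (nA l + nG (l + 8)) + nA l + 2 * nE l) →
    fixSeq 9 i = fixSeq 9 (i + (nA l + nG (l + 8))) := by
  have h := isSys9
  obtain ⟨d1, d2, d3, d4⟩ := h.fix.dbl h.hn
  have d1' : fixSeq 9 510 = 0 := d1
  have d2' : fixSeq 9 511 = 8 := d2
  have d3' : fixSeq 9 512 = 8 := d3
  have d4' : fixSeq 9 513 = 0 := d4
  have e1 := c_succ (a := nA) (g := nG) (v := fixSeq 9) l 510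
  have e2 := c_succ (a := nA) (g := nG) (v := fixSeq 9) l 511
  have e3 := c_succ (a := nA) (g := nG) (v := fixSeq 9) l 512
  rw [d1', Nat.add_zero l, show 510 + 1 = 511 by norm_num] at e1
  rw [d2', show 511 + 1 = 512 by norm_num] at e2
  rw [d3', show 512 + 1 = 513 by norm_num] at e3
  set c := cpos nA nG (fixSeq 9) l with hc
  set r := nA l + nG (l + 8) with hr
  have hE1 := nE_le' l
  have hE2 : nE l ≤ nG (l + 8) := (nE_le l).trans (nG_mono (by omega))
  refine ⟨c 511 - nE l, ?_⟩
  intro i h1 h2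
  rcases Nat.lt_or_ge i (c 511) with h3 | h3
  · -- left extension
    have f1 := h.LT l 510 (c 511 - 1 - i) (by rw [d1', Nat.add_zero l]; omega)
    have f2 := h.LT l 511 (c 511 - 1 - i) (by rw [d2']; omega)
    have f3 := AG (l + 8) l (by omega) (by omega) (c 511 - 1 - i) (by omega)
    rw [← hc, d1', Nat.add_zero l, show 510 + 1 = 511 by norm_num,
      show c 511 - 1 - (c 511 - 1 - i) = i by omega] at f1
    rw [← hc, d2', show 511 + 1 = 512 by norm_num,
      show c 512 - 1 - (c 511 - 1 - i) = i + r by omega] at f2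
    rw [f1, f2]
    exact f3
  rcases Nat.lt_or_ge i (c 511 + nA l) with h4 | h4
  · have f1 := h.L1 l 511 (i - c 511) (by omega)
    have f2 := h.L1 l 512 (i - c 511) (by omega)
    rw [← hc, show c 511 + (i - c 511) = i by omega] at f1
    rw [← hc, show c 512 + (i - c 511) = i + r by omega] at f2
    rw [f1, f2]
  rcases Nat.lt_or_ge i (c 512 + nA l) with h5 | h5
  · have f1 := h.RT l 511 (i - c 511 - nA l) (by rw [d2']; omega)
    have f2 := h.RT l 512 (i - c 511 - nA l) (by rw [d3']; omega)
    rw [← hc, d2', show c 511 + nA l + (i - c 511 - nA l) = i by omega] at f1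
    rw [← hc, d3', show c 512 + nA l + (i - c 511 - nA l) = i + r by omega] at f2
    rw [f1, f2]
  · have f1 := h.RT l 512 (i - c 512 - nA l) (by rw [d3']; omega)
    have f2 := h.RT l 513 (i - c 512 - nA l) (by rw [d4', Nat.add_zero l]; omega)
    have f3 := AG (l + 8) l (by omega) (by omega) (i - c 512 - nA l) (by omega)
    rw [← hc, d3', show c 512 + nA l + (i - c 512 - nA l) = i by omega] at f1
    rw [← hc, d4', Nat.add_zero l,
      show c 513 + nA l + (i - c 512 - nA l) = i + r by omega] at f2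
    rw [f1, f2]
    exact f3.symm

end Run7.h796.Rep
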