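import Pool.Agent.Run7.h796.Lower

/-!
Lower bound for the asymptotic critical exponent of `fixSeq 9`: the inequality.
-/

namespace Run7.h796.Rep

lemma valNA :
    nA 0 = 0 ∧ nA 1 = 1 ∧ nA 2 = 3 ∧ nA 3 = 7 ∧ nA 4 = 15 ∧ nA 5 = 31 ∧ nA 6 = 63 ∧
    nA 7 = 127 ∧ nA 8 = 255 ∧ nA 9 = 511 ∧ nA 10 = 1024 ∧ nA 11 = 2053 ∧ nA 12 = 4119 ∧
    nA 13 = 8271 ∧ nA 14 = 16623 ∧ nA 15 = 33439 ∧ nA 16 = 67327 ∧ nA 17 = 135679 := by
  decide

lemma valNG :
    nG 0 = 1 ∧ nG 1 = 1 ∧ nG 2 = 1 ∧ nG 3 = 1 ∧ nG 4 = 1 ∧ nG 5 = 1 ∧ nG 6 = 1 ∧ nG 7 = 1 ∧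
    nG 8 = 1 ∧ nG 9 = 2 ∧ nG 10 = 5 ∧ nG 11 = 13 ∧ nG 12 = 33 ∧ nG 13 = 81 ∧ nG 14 = 193 ∧
    nG 15 = 449 ∧ nG 16 = 1025 ∧ nG 17 = 2305 ∧ nG 18 = 5121 ∧ nG 19 = 11266 ∧
    nG 20 = 24585 ∧ nG 21 = 53289 ∧ nG 22 = 114849 ∧ nG 23 = 246321 ∧ nG 24 = 526081 ∧
    nG 25 = 1119489 := by
  decide

lemma nA_rec (j : ℕ) : (nA (j + 10) : ℤ) = 4 * nA (j + 9) - 4 * nA (j + 8) + nA j := by
  have h1 := nA_succ (j + 9)
  have h2 := nA_succ (j + 8)
  have h3 := nG_add j
  rw [show j + 9 + 1 = j + 10 by ring] at h1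
  rw [show j + 8 + 1 = j + 9 by ring] at h2
  omega

lemma nG_rec (j : ℕ) : (nG (j + 10) : ℤ) = 4 * nG (j + 9) - 4 * nG (j + 8) + nG j := by
  have h1 := nG_add (j + 1)
  have h2 := nG_add j
  have h3 := nA_succ j
  rw [show j + 1 + 9 = j + 10 by ring, show j + 1 + 8 = j + 9 by ring] at h1
  omega

/-- an auxiliary sequence -/
def sS (l : ℕ) : ℤ :=
  159 * (nA (l + 8) - nA l) + 338 * (nG (l + 8) + nA l) - 10 * (nG (l + 16) - nG (l + 8))

lemma sS_rec (j : ℕ) : sS (j + 10) = 4 * sS (j + 9) - 4 * sS (j + 8) + sS j := by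
  have a1 := nA_rec j
  have a2 := nA_rec (j + 8)
  have g1 := nG_rec (j + 8)
  have g2 := nG_rec (j + 16)
  unfold sS
  simp only [show j + 10 + 8 = j + 18 by ring, show j + 9 + 8 = j + 17 by ring,
    show j + 8 + 8 = j + 16 by ring, show j + 10 + 16 = j + 26 by ring,
    show j + 9 + 16 = j + 25 by ring, show j + 8 + 16 = j + 24 by ring,
    show j + 8 + 10 = j + 18 by ring, show j + 8 + 9 = j + 17 by ring,
    show j + 16 + 10 = j + 26 by ring, show j + 16 + 9 = j + 25 by ring,
    show j + 16 + 8 = j + 24 by ring] at a1 a2 g1 g2 ⊢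
  linarith

lemma sS_nonneg (j : ℕ) : 0 ≤ sS j := by
  -- split into two parts
  have hp : ∀ k, ∀ j, j ≤ k + 4 → 0 ≤ sS j + (sS (j + 5) - 2 * sS (j + 4)) := by
    intro k
    induction k with
    | zero =>
      intro j hj
      have hA := valNA
      have hG := valNG
      unfold sS
      interval_cases j <;> simp only [Nat.zero_add, Nat.reduceAdd] <;> omega
    | succ k ih =>
      intro j hj
      rcases Nat.lt_or_ge j (k + 5) with h | h
      · exact ih j (by omega)
      · obtain rfl : j = k + 5 := by omega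
        have h1 := ih k (by omega)
        have h2 := ih (k + 4) (by omega)
        have h3 := sS_rec k
        simp only [show k + 4 + 5 = k + 9 by ring, show k + 4 + 4 = k + 8 by ring] at h2
        simp only [show k + 5 + 5 = k + 10 by ring, show k + 5 + 4 = k + 9 by ring]
        linarith
  have hm : ∀ k, (∀ j, j ≤ k + 4 → 0 ≤ sS j - (sS (j + 5) - 2 * sS (j + 4))) ∧
      (∀ j, j < k + 4 → sS j - (sS (j + 5) - 2 * sS (j + 4))
        ≤ sS (j + 1) - (sS (j + 6) - 2 * sS (j + 5))) := by
    intro k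
    induction k with
    | zero =>
      have hA := valNA
      have hG := valNG
      constructor
      · intro j hj
        unfold sS
        interval_cases j <;> simp only [Nat.zero_add, Nat.reduceAdd] <;> omega
      · intro j hj
        unfold sS
        interval_cases j <;> simp only [Nat.zero_add, Nat.reduceAdd] <;> omega
    | succ k ih =>
      obtain ⟨ih1, ih2⟩ := ih
      have h3 := sS_rec k
      have h4 : sS (k + 4) - (sS (k + 9) - 2 * sS (k + 8))
          ≤ sS (k + 5) - (sS (k + 10) - 2 * sS (k + 9)) := by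
        have m0 := ih2 k (by omega)
        have m1 := ih2 (k + 1) (by omega)
        have m2 := ih2 (k + 2) (by omega)
        have m3 := ih2 (k + 3) (by omega)
        simp only [show k + 1 + 5 = k + 6 by ring, show k + 1 + 4 = k + 5 by ring,
          show k + 1 + 1 = k + 2 by ring, show k + 1 + 6 = k + 7 by ring,
          show k + 2 + 5 = k + 7 by ring, show k + 2 + 4 = k + 6 by ring,
          show k + 2 + 1 = k + 3 by ring, show k + 2 + 6 = k + 8 by ring,
          show k + 3 + 5 = k + 8 by ring, show k + 3 + 4 = k + 7 by ring,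
          show k + 3 + 1 = k + 4 by ring, show k + 3 + 6 = k + 9 by ring] at m0 m1 m2 m3
        linarith
      refine ⟨?_, ?_⟩
      · intro j hj
        rcases Nat.lt_or_ge j (k + 5) with h | h
        · exact ih1 j (by omega)
        · obtain rfl : j = k + 5 := by omega
          have h2 := ih1 (k + 4) (by omega)
          simp only [show k + 4 + 5 = k + 9 by ring, show k + 4 + 4 = k + 8 by ring] at h2
          simp only [show k + 5 + 5 = k + 10 by ring, show k + 5 + 4 = k + 9 by ring]
          linarith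
      · intro j hj
        rcases Nat.lt_or_ge j (k + 4) with h | h
        · exact ih2 j (by omega)
        · obtain rfl : j = k + 4 := by omega
          simp only [show k + 4 + 5 = k + 9 by ring, show k + 4 + 4 = k + 8 by ring,
            show k + 4 + 1 = k + 5 by ring, show k + 4 + 6 = k + 10 by ring]
          exact h4
  have h1 := hp j j (by omega)
  have h2 := (hm j).1 j (by omega)
  linarith

/-- the main inequality -/
theorem ineq9 (l : ℕ) (hl : 1 ≤ l) :
    10 * (nA l + nG (l + 8)) ≤ 169 * (nA l + 2 * nE l) := by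
  induction l using Nat.strong_induction_on with
  | _ l ih =>
    rcases Nat.lt_or_ge l 9 with h | h
    · have hA := valNA
      have hG := valNG
      have e8 := nE_add 0
      have e0 := nE_small 0 (by norm_num)
      simp only [Nat.zero_add] at e8
      have es := nE_small l
      interval_cases l <;> simp only [Nat.reduceAdd] <;> simp at es <;> omega
    · obtain ⟨m, rfl⟩ : ∃ m, l = m + 8 := ⟨l - 8, by omega⟩
      have h1 := ih m (by omega) (by omega)
      have h2 := sS_nonneg m
      unfold sS at h2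
      rw [nE_add, show m + 8 + 8 = m + 16 by ring]
      omega

end Run7.h796.Rep
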