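import Pool.Agent.Run7.h796.Div

/-!
Occurrences of the palindromic beginnings are canonical.
-/

namespace Run7.h796.Rep

lemma exists_block (l y : ℕ) : ∃ j, cp l j ≤ y ∧ y < cp l (j + 1) := by
  have hl := lA_ge l
  have hex : ∃ k, y < cp l k := ⟨y + 1, by
    have := cp_ge l (y + 1) (by omega)
    omega⟩
  classical
  have h1 := Nat.find_spec hex
  have h2 : Nat.find hex ≠ 0 := by
    intro h0
    rw [h0, cp_zero] at h1
    omega
  refine ⟨Nat.find hex - 1, ?_, ?_⟩
  · have h3 := Nat.find_min hex (show Nat.find hex - 1 < Nat.find hex by omega)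
    omega
  · rw [show Nat.find hex - 1 + 1 = Nat.find hex by omega]
    exact h1

lemma gap_ne4 (i : ℕ) (hi : i < 10) : ∀ x ∈ gap i, x ≠ 4 := by
  interval_cases i <;> decide

lemma occ0 (y : ℕ) (h : U y = 4) : ∃ j, y = cp 0 j := by
  obtain ⟨j, h1, h2⟩ := exists_block 0 y
  refine ⟨j, ?_⟩
  by_contra hne
  rw [cp_succ, Nat.zero_add, lA_zero] at h2
  have hv := fixSeq_lt 10 (by norm_num) j
  have hlen := gap_len _ hv
  have h3 := U_gap j (y - (cp 0 j + 1)) (by omega)
  rw [show cp 0 j + 1 + (y - (cp 0 j + 1)) = y by omega, h] at h3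
  exact gap_ne4 _ hv _ (List.getElem_mem _) h3.symm

theorem Occ (l : ℕ) : ∀ y, (∀ i, i < lA l → U (y + i) = U i) → ∃ j, y = cp l j := by
  induction l with
  | zero =>
    intro y h
    apply occ0
    have := h 0 (by rw [lA_zero]; omega)
    rwa [Nat.add_zero, U_zero] at this
  | succ l ih =>
    intro y h
    have hA := lA_succ l
    have hl := lA_ge l
    obtain ⟨j, hj⟩ := ih y (fun i hi => h i (by omega))
    obtain ⟨j2, hj2⟩ := ih (y + (lA l + lG l)) (by
      intro i hi
      have h1 := h (lA l + lG l + i) (by omega)
      rw [← Nat.add_assoc] at h1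
      rw [h1, UP l i hi])
    by_cases hx : fixSeq 10 j = 0
    · obtain ⟨m, hm⟩ := (isLenU.fix.zero_iff (by norm_num) j).1 hx
      exact ⟨m, by rw [cp_up, ← hm, hj]⟩
    · exfalso
      have hs := cp_succ l j
      have hlt : j < j2 := cp_inj l (by omega)
      rcases Nat.lt_or_ge (j + 1) j2 with h3 | h3
      · have h4 := cp_lt l h3
        have h5 : ∃ k, lA l + lG (l + fixSeq 10 j) = cp l k := by
          apply ih
          intro i hi
          have h6 := U1 l (j + 1) i hi
          have h7 := h (lA l + lG (l + fixSeq 10 j) + i) (by omega)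
          rw [← h7, ← h6]
          congr 1
          omega
        obtain ⟨k, hk⟩ := h5
        have hc1 := cp_one l
        have h8 : k < 1 := cp_inj l (by omega)
        have h9 : k = 0 := by omega
        rw [h9, cp_zero] at hk
        omega
      · have h4 : j2 = j + 1 := by omega
        rw [h4] at hj2
        have hg : lG (l + fixSeq 10 j) = lG l := by omega
        have hv := fixSeq_lt 10 (by norm_num) j
        have hD := (DV_all (l + fixSeq 10 j) l (by omega) (by omega)).2
        have hE : Ef l (l + fixSeq 10 j) < lG l + lA l := by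
          unfold Ef
          split_ifs with hc
          · have := valG.1
            rw [hc.1, this, lA_zero]; omega
          · have := eE_rough l
            omega
        have h5 := URT l j (Ef l (l + fixSeq 10 j)) (by omega)
        have h6 := h (lA l + Ef l (l + fixSeq 10 j)) (by omega)
        rw [← Nat.add_assoc, hj] at h6
        rw [h5] at h6
        exact hD h6.symm

end Run7.h796.Rep
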