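import Pool.Agent.Run7.h796.Defs

/-!
General facts on palindromic factors and rich words.
-/

namespace Run7.h796.Rep

variable {α : Type}

lemma palFactors_finite (w : List α) : (palFactors w).Finite := by
  refine Set.Finite.subset (List.finite_toSet w.sublists) ?_
  intro x hx
  exact List.mem_sublists.2 hx.1.sublist

lemma palFactors_reverse (w : List α) : palFactors w.reverse = palFactors w := by
  ext x
  simp only [palFactors, Set.mem_setOf_eq]
  constructor
  · rintro ⟨h1, h2⟩
    refine ⟨?_, h2⟩
    have := List.reverse_infix.2 h1
    rwa [h2, List.reverse_reverse] at this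
  · rintro ⟨h1, h2⟩
    refine ⟨?_, h2⟩
    have := List.reverse_infix.2 h1
    rwa [h2] at this

lemma palFactors_mono {w w' : List α} (h : w <:+: w') : palFactors w ⊆ palFactors w' :=
  fun _ hx => ⟨hx.1.trans h, hx.2⟩

/-- a shorter palindromic suffix occurs earlier -/
lemma shorter_suffix (w : List α) (a : α) (x y : List α) (hx : x <:+ w ++ [a])
    (hy : y <:+ w ++ [a]) (px : x.reverse = x) (py : y.reverse = y) (h : x.length < y.length) :
    x <:+: w := by
  -- x is a suffix of y, hence a beginning of y
  have h1 : x <:+ y := List.suffix_of_suffix_length_le hx hy h.le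
  have h2 : x <+: y := by
    have := List.reverse_prefix.2 h1
    rwa [px, py] at this
  obtain ⟨t, ht⟩ := h2
  obtain ⟨s, hs⟩ := hy
  rcases List.eq_nil_or_concat t with h3 | ⟨t', b, h3⟩
  · rw [h3, List.append_nil] at ht
    rw [ht] at h; omega
  · rw [← ht, h3] at hs
    have hs' : s ++ x ++ t' ++ [b] = w ++ [a] := by
      rw [← hs]; simp
    have := List.append_inj_left' hs' (by simp)
    exact ⟨s, t', this⟩

lemma pal_concat_le (w : List α) (a : α) :
    (palFactors (w ++ [a])).ncard ≤ (palFactors w).ncard + 1 := by
  classical
  by_cases hex : ∃ x, x ∈ palFactors (w ++ [a]) ∧ x ∉ palFactors w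
  · obtain ⟨x, hx, hxn⟩ := hex
    have hsub : palFactors (w ++ [a]) ⊆ insert x (palFactors w) := by
      intro y hy
      by_cases hyw : y ∈ palFactors w
      · exact Set.mem_insert_of_mem _ hyw
      · left
        have hxs : x <:+ w ++ [a] := by
          rcases List.infix_concat_iff.1 hx.1 with h | h
          · exact h
          · exact absurd ⟨h, hx.2⟩ hxn
        have hys : y <:+ w ++ [a] := by
          rcases List.infix_concat_iff.1 hy.1 with h | h
          · exact h
          · exact absurd ⟨h, hy.2⟩ hyw
        rcases Nat.lt_trichotomy x.length y.length with h | h | h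
        · exact absurd ⟨shorter_suffix w a x y hxs hys hx.2 hy.2 h, hx.2⟩ hxn
        · have h1 : x <:+ y := List.suffix_of_suffix_length_le hxs hys h.le
          exact (h1.eq_of_length h).symm
        · exact absurd ⟨shorter_suffix w a y x hys hxs hy.2 hx.2 h, hy.2⟩ hyw
    calc (palFactors (w ++ [a])).ncard ≤ (insert x (palFactors w)).ncard :=
          Set.ncard_le_ncard hsub ((palFactors_finite w).insert x)
      _ ≤ (palFactors w).ncard + 1 := Set.ncard_insert_le _ _
  · have hsub : palFactors (w ++ [a]) ⊆ palFactors w := by
      intro y hy
      by_contra hyn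
      exact hex ⟨y, hy, hyn⟩
    have := Set.ncard_le_ncard hsub (palFactors_finite w)
    omega

lemma pal_cons_le (w : List α) (a : α) :
    (palFactors (a :: w)).ncard ≤ (palFactors w).ncard + 1 := by
  rw [← palFactors_reverse (a :: w), List.reverse_cons, ← palFactors_reverse w]
  exact pal_concat_le _ _

lemma pal_append_le (w s : List α) :
    (palFactors (w ++ s)).ncard ≤ (palFactors w).ncard + s.length := by
  induction s generalizing w with
  | nil => simp
  | cons b s ih =>
    have h1 := ih (w ++ [b])
    have h2 := pal_concat_le w b
    rw [List.append_assoc] at h1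
    simp only [List.singleton_append, List.length_cons] at h1 ⊢
    omega

lemma pal_prepend_le (w p : List α) :
    (palFactors (p ++ w)).ncard ≤ (palFactors w).ncard + p.length := by
  induction p with
  | nil => simp
  | cons b p ih =>
    have h2 := pal_cons_le (p ++ w) b
    simp only [List.cons_append, List.length_cons] at *
    omega

lemma pal_nil : (palFactors ([] : List α)).ncard = 1 := by
  have : palFactors ([] : List α) = {[]} := by
    ext x
    simp only [palFactors, Set.mem_setOf_eq, List.infix_nil, Set.mem_singleton_iff]
    constructor
    · exact fun h => h.1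
    · rintro rfl; exact ⟨rfl, rfl⟩
  rw [this, Set.ncard_singleton]

lemma pal_le (w : List α) : (palFactors w).ncard ≤ w.length + 1 := by
  have h := pal_append_le [] w
  rw [pal_nil] at h
  simp only [List.nil_append] at h
  omega

lemma block_succ (u : ℕ → α) (j m : ℕ) : block u j (m + 1) = block u j m ++ [u (j + m)] := by
  simp [block, List.range_succ]

lemma block_len (u : ℕ → α) (j m : ℕ) : (block u j m).length = m := by simp [block]

lemma block_get (u : ℕ → α) (j m i : ℕ) (h : i < (block u j m).length) :
    (block u j m)[i] = u (j + i) := by simp [block]

lemma block_append (u : ℕ → α) (j a b : ℕ) :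
    block u j (a + b) = block u j a ++ block u (j + a) b := by
  induction b with
  | zero => simp [block]
  | succ b ih => rw [← Nat.add_assoc, block_succ, ih, block_succ, List.append_assoc]; simp [Nat.add_assoc]

lemma infix_block (u : ℕ → α) (M : ℕ) (x : List α) (h : x <:+: block u 0 M) :
    ∃ k, k + x.length ≤ M ∧ x = block u k x.length := by
  obtain ⟨p, s, hps⟩ := h
  have hl : p.length + x.length + s.length = M := by
    have := congrArg List.length hps
    simpa [block_len, Nat.add_assoc] using this
  refine ⟨p.length, by omega, ?_⟩
  apply List.ext_getElem
  · simp [block_len]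
  · intro i h1 h2
    rw [block_get]
    have h3 : p.length + i < (block u 0 M).length := by rw [block_len]; omega
    have h4 : (block u 0 M)[p.length + i] = u (p.length + i) := by
      rw [block_get, Nat.zero_add]
    rw [← h4]
    have h5 : p.length + i < (p ++ x ++ s).length := by simp; omega
    have h6 : (p ++ x ++ s)[p.length + i]'h5 = (block u 0 M)[p.length + i]'h3 := by
      simp only [hps]
    rw [← h6, List.getElem_append_left (by simp; omega), List.getElem_append_right (by omega)]
    simp

/-- Criterion for richness: each initial factor has a palindromic suffix that does not occur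
earlier. -/
theorem rich_of_new (u : ℕ → α)
    (H : ∀ N, 1 ≤ N → ∃ m, 1 ≤ m ∧ m ≤ N ∧ (∀ i, i < m → u (N - m + i) = u (N - 1 - i)) ∧
      ∀ D, 1 ≤ D → D ≤ N - m → ¬ ∀ i, i < m → u (N - m - D + i) = u (N - m + i)) :
    IsRichSeq u := by
  have h1 : ∀ N, N + 1 ≤ (palFactors (block u 0 N)).ncard := by
    intro N
    induction N with
    | zero =>
      have : block u 0 0 = [] := by simp [block]
      rw [this, pal_nil]
    | succ N ih =>
      obtain ⟨m, hm1, hm2, hp, hn⟩ := H (N + 1) (by omega)
      have hx1 : block u (N + 1 - m) m ∈ palFactors (block u 0 (N + 1)) := by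
        constructor
        · refine ⟨block u 0 (N + 1 - m), [], ?_⟩
          rw [List.append_nil]
          have := block_append u 0 (N + 1 - m) m
          rw [Nat.zero_add, show N + 1 - m + m = N + 1 by omega] at this
          exact this.symm
        · apply List.ext_getElem
          · simp
          · intro i h1 h2
            rw [List.getElem_reverse, block_get, block_get, block_len]
            have him : i < m := by rw [block_len] at h2; exact h2
            rw [hp i him]
            congr 1
            omega
      have hx2 : block u (N + 1 - m) m ∉ palFactors (block u 0 N) := by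
        intro hx
        obtain ⟨k, hk1, hk2⟩ := infix_block u N _ hx.1
        rw [block_len] at hk1 hk2
        refine hn (N + 1 - m - k) (by omega) (by omega) ?_
        intro i hi
        have e1 : (block u (N + 1 - m) m)[i]'(by rw [block_len]; exact hi) = u (N + 1 - m + i) :=
          block_get _ _ _ _ _
        have e2 : (block u k m)[i]'(by rw [block_len]; exact hi) = u (k + i) :=
          block_get _ _ _ _ _
        rw [← e1]
        simp only [hk2]
        rw [e2]
        congr 1
        omega
      have hsub : insert (block u (N + 1 - m) m) (palFactors (block u 0 N))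
          ⊆ palFactors (block u 0 (N + 1)) := by
        intro y hy
        rcases hy with rfl | hy
        · exact hx1
        · refine palFactors_mono ?_ hy
          exact ⟨[], [u (0 + N)], by rw [List.nil_append, block_succ]⟩
      have hc := Set.ncard_le_ncard hsub (palFactors_finite _)
      rw [Set.ncard_insert_of_notMem hx2 (palFactors_finite _)] at hc
      omega
  intro j m
  unfold IsRich
  rw [block_len]
  have h2 := pal_le (block u j m)
  rw [block_len] at h2
  have h3 := h1 (j + m)
  rw [block_append, Nat.zero_add] at h3
  have h4 := pal_prepend_le (block u j m) (block u 0 j)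
  rw [block_len] at h4
  omega

end Run7.h796.Rep
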