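import Pool.Agent.Run7.h796.Occ
import Pool.Agent.Run7.h796.Rich0

/-!
Richness of `U`.
-/

namespace Run7.h796.Rep

/-- the initial factor of length `N` has a palindromic suffix of length `m` that is new -/
def NewPal (N m : ℕ) : Prop :=
  1 ≤ m ∧ m ≤ N ∧ (∀ i, i < m → U (N - m + i) = U (N - 1 - i)) ∧
    ∀ D, 1 ≤ D → D ≤ N - m → ¬ ∀ i, i < m → U (N - m - D + i) = U (N - m + i)

/-- region I -/
lemma regionI (k t : ℕ) (ht : 1 ≤ t) (hE : t ≤ Ef k (k + 1)) (hE2 : t ≤ lA k + lG k) :
    NewPal (lA (k + 1) + t) (lA k + 2 * t) := by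
  have hA := lA_succ k
  have hD := (DV_all (k + 1) k (by omega) (by omega)).1
  have c1 := cp_one k
  have hl := lA_ge k
  have key : ∀ s, s < t → U (lA k + lG k - 1 - s) = U (lA (k + 1) + s) := by
    intro s hs
    have h1 := isSysU.palP (k + 1) (lA k + lG k - 1 - s) (by omega)
    rw [show lA (k + 1) - 1 - (lA k + lG k - 1 - s) = lA k + s by omega] at h1
    rw [h1]
    exact hD s (by omega)
  refine ⟨by omega, by omega, ?_, ?_⟩
  · intro i hi
    rcases Nat.lt_or_ge i t with h1 | h1
    · have h2 := key (t - 1 - i) (by omega)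
      rw [show lA (k + 1) + t - (lA k + 2 * t) + i = lA k + lG k - 1 - (t - 1 - i) by omega, h2]
      congr 1
      omega
    rcases Nat.lt_or_ge i (t + lA k) with h2 | h2
    · have h3 := UP k (i - t) (by omega)
      have h4 := UP k (lA k - 1 - (i - t)) (by omega)
      have h5 := isSysU.palP k (i - t) (by omega)
      rw [show lA (k + 1) + t - (lA k + 2 * t) + i = lA k + lG k + (i - t) by omega, h3, h5, ← h4]
      congr 1
      omega
    · have h3 := key (i - t - lA k) (by omega)
      rw [show lA (k + 1) + t - (lA k + 2 * t) + i = lA (k + 1) + (i - t - lA k) by omega, ← h3]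
      congr 1
      omega
  · intro D hD1 hD2 hc
    obtain ⟨j, hj⟩ := Occ k (lA k + lG k - D) (by
      intro r hr
      have h1 := hc (t + r) (by omega)
      rw [show lA (k + 1) + t - (lA k + 2 * t) - D + (t + r) = lA k + lG k - D + r by omega,
        show lA (k + 1) + t - (lA k + 2 * t) + (t + r) = lA k + lG k + r by omega] at h1
      rw [h1]
      exact UP k r hr)
    have h2 : j < 1 := cp_inj k (by omega)
    have h3 : j = 0 := by omega
    rw [h3, cp_zero] at hj
    omega

/-- the core of level `k` -/
def Core (k N0 : ℕ) : Prop :=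
  ∀ D, 1 ≤ D → D ≤ lA (k + 1) - N0 →
    ¬ ∀ i, i < 2 * N0 - lA (k + 1) → U (lA (k + 1) - N0 - D + i) = U (lA (k + 1) - N0 + i)

/-- region II -/
lemma regionII (k N0 N : ℕ) (hc : Core k N0) (h0 : lA (k + 1) < 2 * N0) (hN : N0 ≤ N)
    (hN2 : N ≤ lA (k + 1)) : NewPal N (2 * N - lA (k + 1)) := by
  refine ⟨by omega, by omega, ?_, ?_⟩
  · intro i hi
    have h1 := isSysU.palP (k + 1) (N - 1 - i) (by omega)
    rw [h1]
    congr 1
    omega
  · intro D hD1 hD2 hcon
    refine hc D hD1 (by omega) ?_
    intro i hi
    have h1 := hcon (N - N0 + i) (by omega)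
    rw [show N - (2 * N - lA (k + 1)) - D + (N - N0 + i) = lA (k + 1) - N0 - D + i by omega,
      show N - (2 * N - lA (k + 1)) + (N - N0 + i) = lA (k + 1) - N0 + i by omega] at h1
    exact h1

/-- the core for large levels -/
lemma core_large (l : ℕ) : Core (l + 10) (lA (l + 10) + eE (l + 9) + 1) := by
  intro D hD1 hD2 hc
  have hA := lA_succ (l + 10)
  have hG := lG_add l
  have hE := eE_add l
  have hI := I2 l
  have hr := eE_rough l
  have hl := lA_ge l
  have hF := isLenU.fix
  obtain ⟨d1, d2, d3, d4⟩ := hF.dbl (by norm_num)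
  have d2' : fixSeq 10 1023 = 9 := d2
  have hc1 : cp l 1023 + lA l = lA (l + 10) := isLenU.c_pow 10 le_rfl l
  have hc2 := cp_succ l 1023
  rw [d2', show 1023 + 1 = 1024 by norm_num] at hc2
  set y0 := cp l 1024 with hy0
  have hy : y0 = lA (l + 10) + lG (l + 9) := by omega
  rw [show lA (l + 10 + 1) - (lA (l + 10) + eE (l + 9) + 1) = y0 - eE l - 1 by omega] at hD2
  rw [show 2 * (lA (l + 10) + eE (l + 9) + 1) - lA (l + 10 + 1) = lA l + 2 * eE l + 2 by omega,
    show lA (l + 10 + 1) - (lA (l + 10) + eE (l + 9) + 1) = y0 - eE l - 1 by omega] at hc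
  have G2 : ∀ t, t < lA l → U (y0 + t) = U t := by
    intro t ht
    rw [hy]; exact isSysU.G2 l t ht
  have G3 : ∀ t, t < lG (l + 9) → U (y0 + lA l + t) = U (lA (l + 9) + t) := by
    intro t ht
    rw [hy]; exact isSysU.G3 l t ht
  have hDV := (DV_all (l + 9) l (by omega) (by omega)).2
  have hEf : Ef l (l + 9) = eE l := by unfold Ef; rw [if_neg (by omega)]
  rw [hEf] at hDV
  obtain ⟨j, hj⟩ := Occ l (y0 - D) (by
    intro r hr
    have h1 := hc (eE l + 1 + r) (by omega)
    rw [show y0 - eE l - 1 - D + (eE l + 1 + r) = y0 - D + r by omega,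
      show y0 - eE l - 1 + (eE l + 1 + r) = y0 + r by omega] at h1
    rw [h1, G2 r hr])
  have hjlt : j < 1024 := cp_inj l (by omega)
  have hjpos : 0 < j := by
    rcases Nat.eq_zero_or_pos j with h | h
    · rw [h, cp_zero] at hj; omega
    · exact h
  obtain ⟨j1, rfl⟩ : ∃ j1, j = j1 + 1 := ⟨j - 1, by omega⟩
  -- right neighbour
  have hv1 : fixSeq 10 (j1 + 1) ≠ 0 := by
    intro h0
    have h1 := hc (eE l + 1 + lA l + eE l) (by omega)
    rw [show y0 - eE l - 1 - D + (eE l + 1 + lA l + eE l) = cp l (j1 + 1) + lA l + eE l by omega,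
      show y0 - eE l - 1 + (eE l + 1 + lA l + eE l) = y0 + lA l + eE l by omega,
      G3 _ (by omega)] at h1
    have h2 := URT l (j1 + 1) (eE l) (by omega)
    rw [h0, Nat.add_zero l] at h2
    rw [h2] at h1
    exact hDV h1
  have hv2 : fixSeq 10 j1 ≠ 0 := by
    intro h0
    have h1 := hc 0 (by omega)
    rw [show y0 - eE l - 1 - D + 0 = cp l (j1 + 1) - 1 - eE l by omega,
      show y0 - eE l - 1 + 0 = y0 - 1 - eE l by omega] at h1
    have h2 := ULT l j1 (eE l) (by omega)
    rw [h0, Nat.add_zero l] at h2
    have h3 := ULT l 1023 (eE l) (by rw [d2']; omega)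
    rw [d2', show 1023 + 1 = 1024 by norm_num, ← hy0] at h3
    rw [h2, h3] at h1
    exact hDV h1
  rcases Nat.even_or_odd' j1 with ⟨i, hi | hi⟩
  · apply hv2
    rw [hi]
    exact hF.even_zero (by norm_num) i (by norm_num; omega)
  · apply hv1
    rw [show j1 + 1 = 2 * (i + 1) by omega]
    exact hF.even_zero (by norm_num) (i + 1) (by norm_num; omega)

/-- initial palindromes -/
def Pl : ℕ → List (Fin 5)
  | 0 => [4]
  | k + 1 => Pl k ++ gap k ++ Pl k

lemma Pl_len (k : ℕ) (hk : k ≤ 10) : (Pl k).length = lA k := by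
  induction k with
  | zero => rfl
  | succ k ih =>
    rw [Pl, List.length_append, List.length_append, ih (by omega), gap_len k (by omega), lA_succ]
    omega

lemma Pl_get (k : ℕ) (hk : k ≤ 10) (i : ℕ) (hi : i < (Pl k).length) : (Pl k)[i] = U i := by
  induction k generalizing i with
  | zero =>
    have : i = 0 := by simp [Pl] at hi; exact hi
    subst this
    rw [U_zero]; rfl
  | succ k ih =>
    have h1 := Pl_len k (by omega)
    have h2 := gap_len k (by omega)
    have h3 := Pl_len (k + 1) hk
    have h4 := lA_succ k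
    simp only [Pl]
    rcases Nat.lt_or_ge i (lA k) with c | c
    · rw [List.getElem_append_left (by rw [List.length_append]; omega),
        List.getElem_append_left (by omega)]
      exact ih (by omega) i (by omega)
    rcases Nat.lt_or_ge i (lA k + lG k) with c2 | c2
    · rw [List.getElem_append_left (by rw [List.length_append]; omega),
        List.getElem_append_right (by omega)]
      rw [← U_gapA k _ (by omega)]
      congr 1
      omega
    · rw [List.getElem_append_right (by rw [List.length_append]; omega)]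
      rw [ih (by omega)]
      rw [List.length_append, h1, h2]
      have := UP k (i - (lA k + lG k)) (by omega)
      rw [← this]
      congr 1
      omega

/-- occurrence test -/
def occ (p : List (Fin 5)) : List (Fin 5) → Bool
  | [] => p.isPrefixOf []
  | a :: w => p.isPrefixOf (a :: w) || occ p w

lemma occ_complete (p w : List (Fin 5)) (q : ℕ) (hq : q + p.length ≤ w.length)
    (h : ∀ i (h1 : i < p.length), p[i] = w[q + i]) : occ p w = true := by
  induction w generalizing q with
  | nil =>
    simp only [List.length_nil] at hq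
    have : p = [] := List.eq_nil_of_length_eq_zero (by omega)
    subst this
    rfl
  | cons a w ih =>
    rw [occ, Bool.or_eq_true]
    rcases Nat.eq_zero_or_pos q with h0 | h0
    · left
      rw [List.isPrefixOf_iff_prefix, List.prefix_iff_eq_take]
      subst h0
      apply List.ext_getElem
      · simp at hq ⊢; omega
      · intro i h1 h2
        rw [List.getElem_take, h i h1]
        simp only [Nat.zero_add]
    · right
      obtain ⟨q', rfl⟩ : ∃ q', q = q' + 1 := ⟨q - 1, by omega⟩
      apply ih q' (by simp at hq; omega)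
      intro i h1
      rw [h i h1]
      simp only [show q' + 1 + i = q' + i + 1 by ring, List.getElem_cons_succ]

/-- a factor `[N-m, N)` that does not occur earlier -/
lemma new_of_occ (k N m : ℕ) (hk : k ≤ 10) (hN : N ≤ lA k) (hm : m ≤ N) (h1N : 1 ≤ N)
    (h : occ (((Pl k).drop (N - m)).take m) ((Pl k).take (N - 1)) = false) :
    ∀ D, 1 ≤ D → D ≤ N - m → ¬ ∀ i, i < m → U (N - m - D + i) = U (N - m + i) := by
  intro D hD1 hD2 hc
  have hl := Pl_len k hk
  have hp : (((Pl k).drop (N - m)).take m).length = m := by simp; omega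
  have := occ_complete (((Pl k).drop (N - m)).take m) ((Pl k).take (N - 1)) (N - m - D)
    (by rw [hp]; simp; omega) (by
      intro i h1
      rw [List.getElem_take, List.getElem_drop, List.getElem_take, Pl_get k hk, Pl_get k hk]
      exact (hc i (by omega)).symm)
  rw [h] at this
  exact absurd this (by norm_num)

end Run7.h796.Rep
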