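import Pool.Agent.Run7.h796.Rich1

/-!
Richness of `U`, completed.
-/

namespace Run7.h796.Rep

set_option maxRecDepth 100000

lemma core_small (k A N0 : ℕ) (hk : k + 1 ≤ 10) (hA : lA (k + 1) = A) (h1 : N0 ≤ A)
    (h2 : A < 2 * N0)
    (h : occ (((Pl (k + 1)).drop (A - N0)).take (2 * N0 - A)) ((Pl (k + 1)).take (N0 - 1))
      = false) : Core k N0 := by
  intro D hD1 hD2 hc
  rw [hA] at hD2 hc
  refine new_of_occ (k + 1) N0 (2 * N0 - A) hk (by omega) (by omega) (by omega) ?_ D hD1
    (by omega) ?_
  · rw [show N0 - (2 * N0 - A) = A - N0 by omega]
    exact h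
  · intro i hi
    have := hc i hi
    rw [show N0 - (2 * N0 - A) = A - N0 by omega]
    exact this

lemma core_0 : Core 0 2 := by
  have hv := valA
  exact core_small 0 3 2 (by norm_num) (by tauto) (by norm_num) (by norm_num)
    (by decide)

lemma core_1 : Core 1 5 := by
  have hv := valA
  exact core_small 1 8 5 (by norm_num) (by tauto) (by norm_num) (by norm_num)
    (by decide)

lemma core_2 : Core 2 9 := by
  have hv := valA
  exact core_small 2 16 9 (by norm_num) (by tauto) (by norm_num) (by norm_num)
    (by decide)

lemma core_3 : Core 3 18 := by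
  have hv := valA
  exact core_small 3 34 18 (by norm_num) (by tauto) (by norm_num) (by norm_num)
    (by decide)

lemma core_4 : Core 4 36 := by
  have hv := valA
  exact core_small 4 69 36 (by norm_num) (by tauto) (by norm_num) (by norm_num)
    (by decide +kernel)

lemma core_5 : Core 5 71 := by
  have hv := valA
  exact core_small 5 141 71 (by norm_num) (by tauto) (by norm_num) (by norm_num)
    (by decide +kernel)

lemma core_6 : Core 6 144 := by
  have hv := valA
  exact core_small 6 287 144 (by norm_num) (by tauto) (by norm_num) (by norm_num)
    (by decide +kernel)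

lemma core_7 : Core 7 293 := by
  have hv := valA
  exact core_small 7 584 293 (by norm_num) (by tauto) (by norm_num) (by norm_num)
    (by decide +kernel)

lemma core_8 : Core 8 594 := by
  have hv := valA
  exact core_small 8 1186 594 (by norm_num) (by tauto) (by norm_num) (by norm_num)
    (by decide +kernel)

lemma core_9 : Core 9 1205 := by
  have hv := valA
  exact core_small 9 2407 1205 (by norm_num) (by tauto) (by norm_num) (by norm_num)
    (by decide +kernel)

end Run7.h796.Rep
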