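import Pool.Agent.Run7.h796.Occ

/-!
Upper bound for the exponents of the factors of `U`.
-/

namespace Run7.h796.Rep

/-- the part of `U` between `s` and `t` has period `P` -/
def Per (s t P : ℕ) : Prop := ∀ i, s ≤ i → i + P < t → U i = U (i + P)

/-- symmetric version of `Ef` -/
def Ex (l x y : ℕ) : ℕ := Ef (l + min x y) (l + max x y)

lemma Ex_comm (l x y : ℕ) : Ex l x y = Ex l y x := by
  unfold Ex; rw [min_comm, max_comm]

lemma Ex_one (l : ℕ) : Ex l 0 1 = if l = 0 then 1 else eE l := by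
  unfold Ex Ef
  by_cases h : l = 0
  · subst h; simp
  · rw [if_neg (by simp; omega), if_neg h]; simp

lemma Ex_zero (l x : ℕ) (hx : 2 ≤ x) : Ex l 0 x = eE l := by
  unfold Ex Ef
  rw [if_neg (by simp; omega)]; simp

lemma Ex_one' (l x : ℕ) (hx : 2 ≤ x) : Ex l 1 x = eE (l + 1) := by
  unfold Ex Ef
  rw [if_neg (by simp; omega), min_eq_left (by omega)]

lemma Ex_lt (l x y : ℕ) (hxy : x ≠ y) (hx : x ≤ 9) (hy : y ≤ 9) :
    Ex l x y < lG (l + x) + lA l ∧ Ex l x y < lG (l + y) + lA l := by
  have hl := lA_ge l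
  wlog h : x < y generalizing x y
  · have := this y x (Ne.symm hxy) hy hx (by omega)
    rw [Ex_comm]
    exact ⟨this.2, this.1⟩
  unfold Ex Ef
  rw [min_eq_left (by omega), max_eq_right (by omega)]
  split_ifs with hc
  · have h1 := valG
    have h2 : l = 0 := by omega
    have h3 : x = 0 := by omega
    have h4 : y = 1 := by omega
    subst h2 h3 h4
    rw [lA_zero]
    simp only [Nat.zero_add]
    omega
  · have h1 := eE_lt l x (by omega)
    have h2 := eE_le' (l + x) (y - x) (by omega)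
    rw [show l + x + (y - x) = l + y by omega] at h2
    omega

lemma Ex_DV (l x y : ℕ) (hxy : x ≠ y) (hx : x ≤ 9) (hy : y ≤ 9) :
    U (lA (l + x) + Ex l x y) ≠ U (lA (l + y) + Ex l x y) := by
  rcases Nat.lt_or_ge x y with h | h
  · unfold Ex
    rw [min_eq_left (by omega), max_eq_right (by omega)]
    exact (DV_all (l + y) (l + x) (by omega) (by omega)).2
  · unfold Ex
    rw [min_eq_right (by omega), max_eq_left (by omega)]
    exact ((DV_all (l + x) (l + y) (by omega) (by omega)).2).symm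

lemma v_le (j : ℕ) : fixSeq 10 j ≤ 9 := by
  have := fixSeq_lt 10 (by norm_num) j
  omega

/-- divergence on the right -/
lemma RD {s t P l i i' : ℕ} (hp : Per s t P) (hP : cp l i' = cp l i + P) (hs : s ≤ cp l i)
    (hv : fixSeq 10 i ≠ fixSeq 10 i') :
    t ≤ cp l i' + lA l + Ex l (fixSeq 10 i) (fixSeq 10 i') := by
  by_contra hc
  have h1 := Ex_lt l _ _ hv (v_le i) (v_le i')
  have h2 := URT l i _ h1.1
  have h3 := URT l i' _ h1.2
  have h4 := hp (cp l i + lA l + Ex l (fixSeq 10 i) (fixSeq 10 i')) (by omega) (by omega)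
  rw [show cp l i + lA l + Ex l (fixSeq 10 i) (fixSeq 10 i') + P
    = cp l i' + lA l + Ex l (fixSeq 10 i) (fixSeq 10 i') by omega, h2, h3] at h4
  exact Ex_DV l _ _ hv (v_le i) (v_le i') h4

/-- divergence on the left -/
lemma LD {s t P l i i' : ℕ} (hp : Per s t P) (hP : cp l (i' + 1) = cp l (i + 1) + P)
    (ht : cp l (i' + 1) ≤ t) (hv : fixSeq 10 i ≠ fixSeq 10 i') :
    cp l (i + 1) ≤ s + Ex l (fixSeq 10 i) (fixSeq 10 i') := by
  by_contra hc
  have h1 := Ex_lt l _ _ hv (v_le i) (v_le i')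
  have h2 := ULT l i _ h1.1
  have h3 := ULT l i' _ h1.2
  have h4 := hp (cp l (i + 1) - 1 - Ex l (fixSeq 10 i) (fixSeq 10 i')) (by omega) (by omega)
  rw [show cp l (i + 1) - 1 - Ex l (fixSeq 10 i) (fixSeq 10 i') + P
    = cp l (i' + 1) - 1 - Ex l (fixSeq 10 i) (fixSeq 10 i') by omega, h2, h3] at h4
  exact Ex_DV l _ _ hv (v_le i) (v_le i') h4

lemma nine_nine (i : ℕ) (h1 : fixSeq 10 i = 9) (h2 : fixSeq 10 (i + 1) = 9) :
    fixSeq 10 (i + 2) = 0 ∧ ∃ k, i = k + 1 ∧ fixSeq 10 k = 0 := by
  have hF := isLenU.fix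
  obtain ⟨m, h3 | h3 | ⟨h3, h4⟩⟩ := hF.dec i
  · rw [h3, hF.a0] at h1; omega
  · rcases hF.right m with ⟨_, _, h6⟩ | ⟨_, _, _, h6⟩
    · rw [h3, show tau 10 m + 1 + 1 = tau 10 m + 2 by ring, h6] at h2; omega
    · refine ⟨?_, tau 10 m, h3, hF.a0 m⟩
      rw [h3, show tau 10 m + 1 + 2 = tau 10 m + 3 by ring]; exact h6
  · rcases hF.right m with ⟨h5, _, _⟩ | ⟨_, _, _, h6⟩
    · exact absurd h4 h5
    · rw [h3, show tau 10 m + 2 + 1 = tau 10 m + 3 by ring, h6] at h2; omega

/-- the contexts of a zero -/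
lemma context (m : ℕ) :
    (fixSeq 10 m = 0 ∧ 1 ≤ fixSeq 10 (m + 1)) ∨ (1 ≤ fixSeq 10 m ∧ fixSeq 10 (m + 1) = 0) ∨
    (fixSeq 10 m = 9 ∧ fixSeq 10 (m + 1) = 9) := by
  have hF := isLenU.fix
  rcases hF.V1 m with h | h | h
  · left
    refine ⟨h, ?_⟩
    have := hF.V2 (by norm_num) m h
    omega
  · right; left
    refine ⟨?_, h⟩
    by_contra hc
    exact hF.V2 (by norm_num) m (by omega) h
  · right; right; exact h

/-- case of two consecutive block positions -/
lemma caseA {s t P l j : ℕ} (hp : Per s t P) (hs : s ≤ cp l j)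
    (ht : cp l (j + 1) + lA l ≤ t) (hP : cp l (j + 1) = cp l j + P) :
    17 * t ≤ 35 * P + 17 * s := by
  have hF := isLenU.fix
  have hl := lA_ge l
  have hS := cp_succ l j
  have i2 := I2 l
  have i3 := I3 l
  have i3' := I3' l
  have e1 := Ex_one l
  have e0 := Ex_zero l
  have hvG := valG
  have hvE := valE
  obtain ⟨m, hm | hm | ⟨hm, hm9⟩⟩ := hF.dec j
  · -- letter zero
    have hj0 : fixSeq 10 j = 0 := by rw [hm]; exact hF.a0 m
    rw [hj0, Nat.add_zero l] at hS
    have hn := hF.V2 (by norm_num) j hj0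
    have r := RD hp hP hs (by rw [hj0]; exact fun h => hn h.symm)
    rw [hj0] at r
    rcases Nat.eq_zero_or_pos j with hz | hz
    · have hc0 := cp_zero l
      rw [hz] at hS hP ht r hs
      simp only [Nat.zero_add] at hS hP ht r
      have hb : Ex l 0 (fixSeq 10 1) ≤ 1 ∧ l = 0 ∨ Ex l 0 (fixSeq 10 1) = eE l := by
        rcases Nat.lt_or_ge (fixSeq 10 1) 2 with h | h
        · have : fixSeq 10 1 = 1 := by
            rw [hz] at hn; simp only [Nat.zero_add] at hn; omega
          rw [this, e1]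
          split_ifs with h0
          · left; exact ⟨le_rfl, h0⟩
          · right; rfl
        · right; exact e0 _ h
      rcases hb with ⟨hb, hb0⟩ | hb
      · subst hb0
        rw [lA_zero] at *
        omega
      · omega
    · obtain ⟨k, rfl⟩ : ∃ k, j = k + 1 := ⟨j - 1, by omega⟩
      have hk : fixSeq 10 k ≠ 0 := fun h => hF.V2 (by norm_num) k h hj0
      have lft := LD hp hP (by omega) (by rw [hj0]; exact hk)
      rw [hj0, Ex_comm] at lft
      -- not both neighbours equal to one
      have hnb : ¬ (fixSeq 10 k = 1 ∧ fixSeq 10 (k + 1 + 1) = 1) := by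
        rintro ⟨h1, h2⟩
        obtain ⟨m', rfl⟩ : ∃ m', m = m' + 1 := by
          rcases Nat.eq_zero_or_pos m with h | h
          · rw [h, hF.t0] at hm; omega
          · exact ⟨m - 1, by omega⟩
        rcases hF.right m' with ⟨h3, h4, _⟩ | ⟨h3, h4, h5, _⟩
        · have h6 := hF.ts2 h3
          rw [show k = tau 10 m' + 1 by omega, h4] at h1
          rcases hF.right (m' + 1) with ⟨h7, h8, _⟩ | ⟨h7, h8, _, _⟩
          · rw [show k + 1 + 1 = tau 10 (m' + 1) + 1 by omega, h8] at h2
            exact hF.V2 (by norm_num) m' (by omega) (by omega)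
          · rw [show k + 1 + 1 = tau 10 (m' + 1) + 1 by omega, h8] at h2
            omega
        · have h6 := hF.ts1 h3
          rw [show k = tau 10 m' + 2 by omega, h5] at h1
          omega
      have hbd : ∀ x, x ≠ 0 → (l = 0 ∧ x = 1 ∧ Ex l 0 x = 1) ∨ Ex l 0 x = eE l := by
        intro x hx
        rcases Nat.lt_or_ge x 2 with h | h
        · have hx1 : x = 1 := by omega
          subst hx1
          rw [e1]
          split_ifs with h0
          · left; exact ⟨h0, rfl, rfl⟩
          · right; rfl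
        · right; exact e0 _ h
      rcases hbd _ hk with ⟨b1, b2, b3⟩ | b1 <;> rcases hbd _ hn with ⟨c1, c2, c3⟩ | c1
      · exact absurd ⟨b2, c2⟩ hnb
      · subst b1
        rw [lA_zero] at *
        omega
      · subst c1
        rw [lA_zero] at *
        omega
      · omega
  · -- first letter after a zero
    have hj0 : fixSeq 10 j ≠ 0 := by rw [hm]; exact hF.one_ne (by norm_num) m
    have lft := LD (l := l) (i := tau 10 m) (i' := j) hp (by rw [hP, hm])
      (by omega) (by rw [hF.a0]; exact fun h => hj0 h.symm)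
    rw [hF.a0, ← hm] at lft
    rcases hF.right m with ⟨h1, h2, h3⟩ | ⟨h1, h2, h3, h4⟩
    · have hj1 : fixSeq 10 (j + 1) = 0 := by
        rw [hm, show tau 10 m + 1 + 1 = tau 10 m + 2 by ring]; exact h3
      have r := RD hp hP hs (by rw [hj1]; exact hj0)
      rw [hj1, Ex_comm] at r
      have hle := v_le j
      have hI := i3' (fixSeq 10 j) hle
      rcases Nat.lt_or_ge (fixSeq 10 j) 2 with h | h
      · have hj2 : fixSeq 10 j = 1 := by omega
        rw [hj2] at hS r lft hI
        rw [e1] at r lft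
        by_cases h0 : l = 0
        · rw [if_pos h0] at r lft
          subst h0
          rw [lA_zero] at hS r hI ht i2 i3
          simp only [Nat.zero_add] at hS hI
          omega
        · rw [if_neg h0] at r lft
          omega
      · rw [e0 _ h] at r lft
        omega
    · have hj9 : fixSeq 10 j = 9 := by rw [hm]; exact h2
      have hj1 : fixSeq 10 (j + 1) = 9 := by
        rw [hm, show tau 10 m + 1 + 1 = tau 10 m + 2 by ring]; exact h3
      have hj2 : fixSeq 10 (j + 1 + 1) = 0 := by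
        rw [hm, show tau 10 m + 1 + 1 + 1 = tau 10 m + 3 by ring]; exact h4
      have hS2 := cp_succ l (j + 1)
      rw [hj1] at hS2
      rw [hj9] at hS lft
      have r := RD (l := l) (i := j + 1) (i' := j + 1 + 1) hp (by omega) (by omega)
        (by rw [hj1, hj2]; norm_num)
      rw [hj1, hj2, Ex_comm, e0 9 (by norm_num)] at r
      rw [e0 9 (by norm_num)] at lft
      omega
  · -- second letter nine
    rcases hF.right m with ⟨h1, _, _⟩ | ⟨h1, h2, h3, h4⟩
    · exact absurd hm9 h1
    have hj9 : fixSeq 10 j = 9 := by rw [hm]; exact h3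
    have hj1 : fixSeq 10 (j + 1) = 0 := by
      rw [hm, show tau 10 m + 2 + 1 = tau 10 m + 3 by ring]; exact h4
    have hj8 : fixSeq 10 (tau 10 m + 1) = 9 := h2
    have r := RD hp hP hs (by rw [hj1, hj9]; norm_num)
    rw [hj1, hj9, Ex_comm, e0 9 (by norm_num)] at r
    have hS2 := cp_succ l (tau 10 m + 1)
    rw [hj8, show tau 10 m + 1 + 1 = j by omega] at hS2
    rw [hj9] at hS
    have lft := LD (l := l) (i := tau 10 m) (i' := tau 10 m + 1) hp
      (by rw [show tau 10 m + 1 + 1 = j by omega]; omega)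
      (by rw [show tau 10 m + 1 + 1 = j by omega]; omega)
      (by rw [hF.a0, hj8]; norm_num)
    rw [hF.a0, hj8, e0 9 (by norm_num)] at lft
    omega

end Run7.h796.Rep
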