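import Pool.Agent.Run7.h796.Runs

/-!
Upper bound for the exponents of the factors of `U`, second part.
-/

namespace Run7.h796.Rep

/-- there is no pair of canonical positions of level `l+1` at distance `P` in the window -/
def NoPair (s t P l : ℕ) : Prop :=
  ∀ m m', m < m' → s ≤ cp (l + 1) m → cp (l + 1) m' + lA (l + 1) ≤ t →
    cp (l + 1) m' = cp (l + 1) m + P → False

lemma Zl {s t P l m : ℕ} (hp : Per s t P) (hPp : 1 ≤ P) (hN : NoPair s t P l)
    (h1 : s ≤ cp (l + 1) m) (h2 : cp (l + 1) m + lA (l + 1) ≤ t) :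
    cp (l + 1) m < s + P ∧ t < cp (l + 1) m + P + lA (l + 1) := by
  constructor
  · by_contra hc
    obtain ⟨m2, hm2⟩ := Occ (l + 1) (cp (l + 1) m - P) (by
      intro i hi
      have h3 := hp (cp (l + 1) m - P + i) (by omega) (by omega)
      rw [h3, show cp (l + 1) m - P + i + P = cp (l + 1) m + i by omega]
      exact U1 (l + 1) m i hi)
    exact hN m2 m (cp_inj (l + 1) (by omega)) (by omega) h2 (by omega)
  · by_contra hc
    obtain ⟨m2, hm2⟩ := Occ (l + 1) (cp (l + 1) m + P) (by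
      intro i hi
      have h3 := hp (cp (l + 1) m + i) (by omega) (by omega)
      rw [show cp (l + 1) m + P + i = cp (l + 1) m + i + P by omega, ← h3]
      exact U1 (l + 1) m i hi)
    exact hN m m2 (cp_inj (l + 1) (by omega)) h1 (by omega) (by omega)

lemma Z2 {s t P l m1 m2 : ℕ} (hp : Per s t P) (hPp : 1 ≤ P) (h2P : s + 2 * P ≤ t)
    (hN : NoPair s t P l) (hm : m1 < m2)
    (h1 : s ≤ cp (l + 1) m1) (h2 : cp (l + 1) m2 + lA (l + 1) ≤ t) : False := by
  have h3 := cp_lt (l + 1) hm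
  have h4 := Zl hp hPp hN h1 (by omega)
  have h5 := Zl hp hPp hN (m := m2) (by omega) h2
  omega

lemma cp_one_up (l m : ℕ) : cp l (tau 10 m + 1) = cp (l + 1) m + lA l + lG l := by
  rw [cp_succ, isLenU.fix.a0, cp_up, Nat.add_zero l]; omega

/-- numerical facts -/
structure Num (l : ℕ) : Prop where
  he : 16 * eE l ≤ lA l
  he1 : 16 * eE (l + 1) ≤ lA (l + 1)
  hI : 16 * lA l + 34 * eE l ≤ lG (l + 9)
  hI1 : 16 * lA (l + 1) + 34 * eE (l + 1) ≤ lG (l + 10)
  hg10 : lG (l + 10) = 2 * lG (l + 9) + lA l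
  hg : lG l ≤ lA l
  hA1 : lA (l + 1) = 2 * lA l + lG l
  hx : Ex l 0 1 ≤ lA l
  hl : 1 ≤ lA l

lemma num (l : ℕ) : Num l where
  he := eE_rough l
  he1 := eE_rough (l + 1)
  hI := I2 l
  hI1 := I2 (l + 1)
  hg10 := lG_add l
  hg := lG_le l
  hA1 := lA_succ l
  hx := by
    rw [Ex_one]
    have h1 := lA_ge l
    have h2 := eE_rough l
    split_ifs <;> omega
  hl := by have := lA_ge l; omega

lemma I3s (l x : ℕ) (hx : x ≤ 9) : 34 * eE (l + 1) ≤ lA (l + 1) + 18 * lG (l + (x + 1)) := by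
  have := I3' (l + 1) x hx
  rwa [show l + 1 + x = l + (x + 1) by ring] at this

/-- T1 and T3: the blocks around the zero are single letters `al` and `be`, one of which is `1` -/
lemma leafSS {s t P l j j' K0 al be : ℕ} (hp : Per s t P) (h2P : s + 2 * P ≤ t)
    (hs : s ≤ cp l j) (ht : cp l j' + lA l ≤ t) (hP : cp l j' = cp l j + P)
    (v0 : fixSeq 10 K0 = 0) (v1 : fixSeq 10 (K0 + 1) = al) (v2 : fixSeq 10 (K0 + 2) = 0)
    (v3 : fixSeq 10 (K0 + 3) = be) (v4 : fixSeq 10 (K0 + 4) = 0)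
    (hal : al ≤ 9) (hbe : be ≤ 9)
    (hab : (al = 1 ∧ 2 ≤ be) ∨ (be = 1 ∧ 2 ≤ al))
    (hprev : cp l K0 < s) (hnext : t < cp l (K0 + 4) + lA (l + 1))
    (hj : j = K0 + 1 ∨ j = K0 + 2) (hj' : j' = K0 + 3 ∨ j' = K0 + 4)
    (hne : ¬ (j = K0 + 2 ∧ j' = K0 + 3)) : 17 * t ≤ 35 * P + 17 * s := by
  obtain ⟨he, he1, hI, hI1, hg10, hg, hA1, hx, hl⟩ := num l
  have c1 := cp_succ l K0
  have c2 := cp_succ l (K0 + 1)
  have c3 := cp_succ l (K0 + 2)
  have c4 := cp_succ l (K0 + 3)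
  rw [v0, Nat.add_zero l] at c1
  rw [v1, show K0 + 1 + 1 = K0 + 2 by ring] at c2
  rw [v2, Nat.add_zero l, show K0 + 2 + 1 = K0 + 3 by ring] at c3
  rw [v3, show K0 + 3 + 1 = K0 + 4 by ring] at c4
  have ia := I3s l (al - 1) (by omega)
  have ib := I3s l (be - 1) (by omega)
  rw [show al - 1 + 1 = al by omega] at ia
  rw [show be - 1 + 1 = be by omega] at ib
  have hE : Ex l al be = eE (l + 1) := by
    rcases hab with ⟨h1, h2⟩ | ⟨h1, h2⟩
    · rw [h1, Ex_one' l be h2]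
    · rw [h1, Ex_comm, Ex_one' l al h2]
  rcases hj with rfl | rfl <;> rcases hj' with rfl | rfl
  · -- (i)
    have r := RD (l := l) (i := K0 + 1) (i' := K0 + 3) hp hP hs (by rw [v1, v3]; omega)
    rw [v1, v3, hE] at r
    omega
  · -- (iii)
    have r := RD (l := l) (i := K0 + 1) (i' := K0 + 4) hp hP hs (by rw [v1, v4]; omega)
    have q := LD (l := l) (i := K0) (i' := K0 + 3) hp (by
      rw [show K0 + 3 + 1 = K0 + 4 by ring]; exact hP) (by
      rw [show K0 + 3 + 1 = K0 + 4 by ring]; omega) (by rw [v0, v3]; omega)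
    rw [v1, v4, Ex_comm] at r
    rw [v0, v3] at q
    have hxx : Ex l 0 al + Ex l 0 be ≤ 2 * lA l := by
      rcases hab with ⟨h1, h2⟩ | ⟨h1, h2⟩
      · rw [h1, Ex_zero l be h2]; omega
      · rw [h1, Ex_zero l al h2]; omega
    omega
  · exact absurd ⟨rfl, rfl⟩ hne
  · -- (ii)
    have q := LD (l := l) (i := K0 + 1) (i' := K0 + 3) hp (by
      rw [show K0 + 3 + 1 = K0 + 4 by ring, show K0 + 1 + 1 = K0 + 2 by ring]; exact hP) (by
      rw [show K0 + 3 + 1 = K0 + 4 by ring]; omega) (by rw [v1, v3]; omega)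
    rw [v1, v3, hE, show K0 + 1 + 1 = K0 + 2 by ring] at q
    omega

/-- T2: `1` on the left and `99` on the right -/
lemma leafSD {s t P l j j' K0 : ℕ} (hp : Per s t P) (h2P : s + 2 * P ≤ t)
    (hs : s ≤ cp l j) (ht : cp l j' + lA l ≤ t) (hP : cp l j' = cp l j + P)
    (v0 : fixSeq 10 K0 = 0) (v1 : fixSeq 10 (K0 + 1) = 1) (v2 : fixSeq 10 (K0 + 2) = 0)
    (v3 : fixSeq 10 (K0 + 3) = 9) (v4 : fixSeq 10 (K0 + 4) = 9) (v5 : fixSeq 10 (K0 + 5) = 0)
    (hprev : cp l K0 < s) (hnext : t < cp l (K0 + 5) + lA (l + 1))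
    (hj : j = K0 + 1 ∨ j = K0 + 2) (hj' : j' = K0 + 3 ∨ j' = K0 + 4 ∨ j' = K0 + 5)
    (hne : ¬ (j = K0 + 2 ∧ j' = K0 + 3)) : 17 * t ≤ 35 * P + 17 * s := by
  obtain ⟨he, he1, hI, hI1, hg10, hg, hA1, hx, hl⟩ := num l
  have c1 := cp_succ l K0
  have c2 := cp_succ l (K0 + 1)
  have c3 := cp_succ l (K0 + 2)
  have c4 := cp_succ l (K0 + 3)
  have c5 := cp_succ l (K0 + 4)
  rw [v0, Nat.add_zero l] at c1
  rw [v1, show K0 + 1 + 1 = K0 + 2 by ring] at c2
  rw [v2, Nat.add_zero l, show K0 + 2 + 1 = K0 + 3 by ring] at c3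
  rw [v3, show K0 + 3 + 1 = K0 + 4 by ring] at c4
  rw [v4, show K0 + 4 + 1 = K0 + 5 by ring] at c5
  have ia := I3s l 0 (by omega)
  rw [show 0 + 1 = 1 by norm_num] at ia
  have E0 := Ex_zero l 9 (by norm_num)
  have E1 := Ex_one' l 9 (by norm_num)
  rcases hj with rfl | rfl <;> rcases hj' with rfl | rfl | rfl
  · -- (K0+1, K0+3)
    have r := RD (l := l) (i := K0 + 1) (i' := K0 + 3) hp hP hs (by rw [v1, v3]; norm_num)
    rw [v1, v3, E1] at r
    omega
  · -- 109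
    have r := RD (l := l) (i := K0 + 1) (i' := K0 + 4) hp hP hs (by rw [v1, v4]; norm_num)
    have q := LD (l := l) (i := K0) (i' := K0 + 3) hp (by
      rw [show K0 + 3 + 1 = K0 + 4 by ring]; exact hP) (by
      rw [show K0 + 3 + 1 = K0 + 4 by ring]; omega) (by rw [v0, v3]; norm_num)
    rw [v1, v4, E1] at r
    rw [v0, v3, E0] at q
    omega
  · -- 1099
    have r := RD (l := l) (i := K0 + 1) (i' := K0 + 5) hp hP hs (by rw [v1, v5]; norm_num)
    have q := LD (l := l) (i := K0) (i' := K0 + 4) hp (by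
      rw [show K0 + 4 + 1 = K0 + 5 by ring]; exact hP) (by
      rw [show K0 + 4 + 1 = K0 + 5 by ring]; omega) (by rw [v0, v4]; norm_num)
    rw [v1, v5, Ex_comm] at r
    rw [v0, v4, E0] at q
    omega
  · exact absurd ⟨rfl, rfl⟩ hne
  · -- 09
    have r := RD (l := l) (i := K0 + 2) (i' := K0 + 4) hp hP hs (by rw [v2, v4]; norm_num)
    have q := LD (l := l) (i := K0 + 1) (i' := K0 + 3) hp (by
      rw [show K0 + 3 + 1 = K0 + 4 by ring, show K0 + 1 + 1 = K0 + 2 by ring]; exact hP) (by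
      rw [show K0 + 3 + 1 = K0 + 4 by ring]; omega) (by rw [v1, v3]; norm_num)
    rw [v2, v4, E0] at r
    rw [v1, v3, E1, show K0 + 1 + 1 = K0 + 2 by ring] at q
    omega
  · -- 099
    have q := LD (l := l) (i := K0 + 1) (i' := K0 + 4) hp (by
      rw [show K0 + 4 + 1 = K0 + 5 by ring, show K0 + 1 + 1 = K0 + 2 by ring]; exact hP) (by
      rw [show K0 + 4 + 1 = K0 + 5 by ring]; omega) (by rw [v1, v4]; norm_num)
    rw [v1, v4, E1, show K0 + 1 + 1 = K0 + 2 by ring] at q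
    omega

/-- T4: `99` on the left and `1` on the right -/
lemma leafDS {s t P l j j' K0 : ℕ} (hp : Per s t P) (h2P : s + 2 * P ≤ t)
    (hs : s ≤ cp l j) (ht : cp l j' + lA l ≤ t) (hP : cp l j' = cp l j + P)
    (v0 : fixSeq 10 K0 = 0) (v1 : fixSeq 10 (K0 + 1) = 9) (v2 : fixSeq 10 (K0 + 2) = 9)
    (v3 : fixSeq 10 (K0 + 3) = 0) (v4 : fixSeq 10 (K0 + 4) = 1) (v5 : fixSeq 10 (K0 + 5) = 0)
    (hprev : cp l K0 < s) (hnext : t < cp l (K0 + 5) + lA (l + 1))
    (hj : j = K0 + 1 ∨ j = K0 + 2 ∨ j = K0 + 3) (hj' : j' = K0 + 4 ∨ j' = K0 + 5)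
    (hne : ¬ (j = K0 + 3 ∧ j' = K0 + 4)) : 17 * t ≤ 35 * P + 17 * s := by
  obtain ⟨he, he1, hI, hI1, hg10, hg, hA1, hx, hl⟩ := num l
  have c1 := cp_succ l K0
  have c2 := cp_succ l (K0 + 1)
  have c3 := cp_succ l (K0 + 2)
  have c4 := cp_succ l (K0 + 3)
  have c5 := cp_succ l (K0 + 4)
  rw [v0, Nat.add_zero l] at c1
  rw [v1, show K0 + 1 + 1 = K0 + 2 by ring] at c2
  rw [v2, show K0 + 2 + 1 = K0 + 3 by ring] at c3
  rw [v3, Nat.add_zero l, show K0 + 3 + 1 = K0 + 4 by ring] at c4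
  rw [v4, show K0 + 4 + 1 = K0 + 5 by ring] at c5
  have ia := I3s l 0 (by omega)
  rw [show 0 + 1 = 1 by norm_num] at ia
  have E0 := Ex_zero l 9 (by norm_num)
  have E1 := Ex_one' l 9 (by norm_num)
  rcases hj with rfl | rfl | rfl <;> rcases hj' with rfl | rfl
  · -- 990
    have r := RD (l := l) (i := K0 + 1) (i' := K0 + 4) hp hP hs (by rw [v1, v4]; norm_num)
    rw [v1, v4, Ex_comm, E1] at r
    omega
  · -- 9901
    have r := RD (l := l) (i := K0 + 1) (i' := K0 + 5) hp hP hs (by rw [v1, v5]; norm_num)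
    have q := LD (l := l) (i := K0) (i' := K0 + 4) hp (by
      rw [show K0 + 4 + 1 = K0 + 5 by ring]; exact hP) (by
      rw [show K0 + 4 + 1 = K0 + 5 by ring]; omega) (by rw [v0, v4]; norm_num)
    rw [v1, v5, Ex_comm, E0] at r
    rw [v0, v4] at q
    omega
  · -- 90
    have r := RD (l := l) (i := K0 + 2) (i' := K0 + 4) hp hP hs (by rw [v2, v4]; norm_num)
    have q := LD (l := l) (i := K0 + 1) (i' := K0 + 3) hp (by
      rw [show K0 + 3 + 1 = K0 + 4 by ring, show K0 + 1 + 1 = K0 + 2 by ring]; exact hP) (by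
      rw [show K0 + 3 + 1 = K0 + 4 by ring]; omega) (by rw [v1, v3]; norm_num)
    rw [v2, v4, Ex_comm, E1] at r
    rw [v1, v3, Ex_comm, E0, show K0 + 1 + 1 = K0 + 2 by ring] at q
    omega
  · -- 901
    have r := RD (l := l) (i := K0 + 2) (i' := K0 + 5) hp hP hs (by rw [v2, v5]; norm_num)
    have q := LD (l := l) (i := K0 + 1) (i' := K0 + 4) hp (by
      rw [show K0 + 4 + 1 = K0 + 5 by ring, show K0 + 1 + 1 = K0 + 2 by ring]; exact hP) (by
      rw [show K0 + 4 + 1 = K0 + 5 by ring]; omega) (by rw [v1, v4]; norm_num)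
    rw [v2, v5, Ex_comm, E0] at r
    rw [v1, v4, Ex_comm, E1, show K0 + 1 + 1 = K0 + 2 by ring] at q
    omega
  · exact absurd ⟨rfl, rfl⟩ hne
  · -- 01
    have q := LD (l := l) (i := K0 + 2) (i' := K0 + 4) hp (by
      rw [show K0 + 4 + 1 = K0 + 5 by ring, show K0 + 2 + 1 = K0 + 3 by ring]; exact hP) (by
      rw [show K0 + 4 + 1 = K0 + 5 by ring]; omega) (by rw [v2, v4]; norm_num)
    rw [v2, v4, Ex_comm, E1, show K0 + 2 + 1 = K0 + 3 by ring] at q
    omega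

/-- T5: `99` on both sides -/
lemma leafDD {s t P l j j' K0 : ℕ} (hp : Per s t P) (h2P : s + 2 * P ≤ t)
    (hs : s ≤ cp l j) (ht : cp l j' + lA l ≤ t) (hP : cp l j' = cp l j + P)
    (v0 : fixSeq 10 K0 = 0) (v1 : fixSeq 10 (K0 + 1) = 9) (v2 : fixSeq 10 (K0 + 2) = 9)
    (v3 : fixSeq 10 (K0 + 3) = 0) (v4 : fixSeq 10 (K0 + 4) = 9) (v5 : fixSeq 10 (K0 + 5) = 9)
    (v6 : fixSeq 10 (K0 + 6) = 0)
    (hprev : cp l K0 < s) (hnext : t < cp l (K0 + 6) + lA (l + 1))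
    (hj : j = K0 + 1 ∨ j = K0 + 2 ∨ j = K0 + 3)
    (hj' : j' = K0 + 4 ∨ j' = K0 + 5 ∨ j' = K0 + 6)
    (hne : ¬ (j = K0 + 3 ∧ j' = K0 + 4)) : 17 * t ≤ 35 * P + 17 * s := by
  obtain ⟨he, he1, hI, hI1, hg10, hg, hA1, hx, hl⟩ := num l
  have c1 := cp_succ l K0
  have c2 := cp_succ l (K0 + 1)
  have c3 := cp_succ l (K0 + 2)
  have c4 := cp_succ l (K0 + 3)
  have c5 := cp_succ l (K0 + 4)
  have c6 := cp_succ l (K0 + 5)
  rw [v0, Nat.add_zero l] at c1
  rw [v1, show K0 + 1 + 1 = K0 + 2 by ring] at c2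
  rw [v2, show K0 + 2 + 1 = K0 + 3 by ring] at c3
  rw [v3, Nat.add_zero l, show K0 + 3 + 1 = K0 + 4 by ring] at c4
  rw [v4, show K0 + 4 + 1 = K0 + 5 by ring] at c5
  rw [v5, show K0 + 5 + 1 = K0 + 6 by ring] at c6
  have E0 := Ex_zero l 9 (by norm_num)
  rcases hj with rfl | rfl | rfl <;> rcases hj' with rfl | rfl | rfl
  · -- 990: window
    omega
  · -- 9909
    have r := RD (l := l) (i := K0 + 2) (i' := K0 + 6) hp (by omega) (by omega)
      (by rw [v2, v6]; norm_num)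
    have q := LD (l := l) (i := K0) (i' := K0 + 4) hp (by
      rw [show K0 + 4 + 1 = K0 + 5 by ring]; exact hP) (by
      rw [show K0 + 4 + 1 = K0 + 5 by ring]; omega) (by rw [v0, v4]; norm_num)
    rw [v2, v6, Ex_comm, E0] at r
    rw [v0, v4, E0] at q
    omega
  · -- 99099
    have r := RD (l := l) (i := K0 + 1) (i' := K0 + 6) hp hP hs (by rw [v1, v6]; norm_num)
    have q := LD (l := l) (i := K0) (i' := K0 + 5) hp (by
      rw [show K0 + 5 + 1 = K0 + 6 by ring]; exact hP) (by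
      rw [show K0 + 5 + 1 = K0 + 6 by ring]; omega) (by rw [v0, v5]; norm_num)
    rw [v1, v6, Ex_comm, E0] at r
    rw [v0, v5, E0] at q
    omega
  · -- 90
    have r := RD (l := l) (i := K0 + 3) (i' := K0 + 5) hp (by omega) (by omega)
      (by rw [v3, v5]; norm_num)
    have q := LD (l := l) (i := K0 + 1) (i' := K0 + 3) hp (by
      rw [show K0 + 3 + 1 = K0 + 4 by ring, show K0 + 1 + 1 = K0 + 2 by ring]; exact hP) (by
      rw [show K0 + 3 + 1 = K0 + 4 by ring]; omega) (by rw [v1, v3]; norm_num)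
    rw [v3, v5, E0] at r
    rw [v1, v3, Ex_comm, E0, show K0 + 1 + 1 = K0 + 2 by ring] at q
    omega
  · -- 909: window
    omega
  · -- 9099
    have r := RD (l := l) (i := K0 + 2) (i' := K0 + 6) hp hP hs (by rw [v2, v6]; norm_num)
    have q := LD (l := l) (i := K0) (i' := K0 + 4) hp (by
      rw [show K0 + 4 + 1 = K0 + 5 by ring]; omega) (by
      rw [show K0 + 4 + 1 = K0 + 5 by ring]; omega) (by rw [v0, v4]; norm_num)
    rw [v2, v6, Ex_comm, E0] at r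
    rw [v0, v4, E0] at q
    omega
  · exact absurd ⟨rfl, rfl⟩ hne
  · -- 09
    have r := RD (l := l) (i := K0 + 3) (i' := K0 + 5) hp hP hs (by rw [v3, v5]; norm_num)
    have q := LD (l := l) (i := K0 + 1) (i' := K0 + 3) hp (by
      rw [show K0 + 3 + 1 = K0 + 4 by ring, show K0 + 1 + 1 = K0 + 2 by ring]; omega) (by
      rw [show K0 + 3 + 1 = K0 + 4 by ring]; omega) (by rw [v1, v3]; norm_num)
    rw [v3, v5, E0] at r
    rw [v1, v3, Ex_comm, E0, show K0 + 1 + 1 = K0 + 2 by ring] at q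
    omega
  · -- 099: window
    omega

end Run7.h796.Rep
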