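import Pool.Agent.Run7.h796.Runs2

/-!
Upper bound for the exponents of the factors of `U`, assembly.
-/

namespace Run7.h796.Rep

lemma succ_ne_nine {x : ℕ} (h : x ≠ 10 - 1) (hx : x ≤ 9) : x ≤ 8 := by omega

theorem run (n : ℕ) : ∀ l s t P j j', P - l ≤ n → Per s t P → s + 2 * P ≤ t → j < j' →
    s ≤ cp l j → cp l j' + lA l ≤ t → cp l j' = cp l j + P → 17 * t ≤ 35 * P + 17 * s := by
  induction n with
  | zero =>
    intro l s t P j j' hPn hp h2P hjj hs ht hP
    have h1 := cp_lt l hjj
    have h2 := lA_ge l
    omega
  | succ n ih =>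
    intro l s t P j j' hPn hp h2P hjj hs ht hP
    have hF := isLenU.fix
    have hlt := cp_lt l hjj
    have hl := lA_ge l
    by_cases hR : ∃ m m', m < m' ∧ s ≤ cp (l + 1) m ∧ cp (l + 1) m' + lA (l + 1) ≤ t ∧
        cp (l + 1) m' = cp (l + 1) m + P
    · obtain ⟨m, m', h1, h2, h3, h4⟩ := hR
      exact ih (l + 1) s t P m m' (by omega) hp h2P h1 h2 h3 h4
    have hN : NoPair s t P l := fun m m' h1 h2 h3 h4 => hR ⟨m, m', h1, h2, h3, h4⟩
    rcases Nat.lt_or_ge (j + 1) j' with hq | hq
    swap
    · obtain rfl : j' = j + 1 := by omega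
      exact caseA hp hs ht hP
    by_cases hz : ∃ k, j ≤ k ∧ k < j' ∧ fixSeq 10 k = 0
    swap
    · -- the block is 99
      have hz1 : fixSeq 10 j ≠ 0 := fun h => hz ⟨j, le_rfl, hjj, h⟩
      have hz2 : fixSeq 10 (j + 1) ≠ 0 := fun h => hz ⟨j + 1, by omega, hq, h⟩
      rcases hF.V1 j with h | h | ⟨h1, h2⟩
      · exact absurd h hz1
      · exact absurd h hz2
      have h1' : fixSeq 10 j = 9 := h1
      have h2' : fixSeq 10 (j + 1) = 9 := h2
      obtain ⟨h3, k, hk, hk0⟩ := nine_nine j h1' h2'
      have hj' : j' = j + 2 := by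
        by_contra hne
        exact hz ⟨j + 2, by omega, by omega, h3⟩
      subst hj'
      obtain ⟨he, he1, hI, hI1, hg10, hg, hA1, hx, hl1⟩ := num l
      have c1 := cp_succ l j
      have c2 := cp_succ l (j + 1)
      rw [h1'] at c1
      rw [h2', show j + 1 + 1 = j + 2 by ring] at c2
      have E0 := Ex_zero l 9 (by norm_num)
      have r := RD hp hP hs (by rw [h1', h3]; norm_num)
      rw [h1', h3, Ex_comm, E0] at r
      have q := LD (l := l) (i := k) (i' := j + 1) hp (by
        rw [show j + 1 + 1 = j + 2 by ring, ← hk]; exact hP) (by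
        rw [show j + 1 + 1 = j + 2 by ring]; omega) (by rw [hk0, h2']; norm_num)
      rw [hk0, h2', E0, ← hk] at q
      omega
    · obtain ⟨k, hjk, hkj', hk0⟩ := hz
      obtain ⟨m, rfl⟩ := (hF.zero_iff (by norm_num) k).1 hk0
      have hA1 := lA_succ l
      have hPp : 1 ≤ P := by omega
      have hm1 := cp_one_up l m
      have i1 : s ≤ cp (l + 1) m := by
        rw [cp_up]; exact hs.trans (cp_le l hjk)
      have i2 : cp (l + 1) m + lA (l + 1) ≤ t := by
        have := cp_le l (show tau 10 m + 1 ≤ j' from hkj')
        omega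
      have hnext : t < cp (l + 1) (m + 1) + lA (l + 1) := by
        by_contra hc
        exact Z2 hp hPp h2P hN (show m < m + 1 by omega) i1 (by omega)
      have hj'le : j' ≤ tau 10 (m + 1) := by
        by_contra hc
        have h1 := cp_le l (show tau 10 (m + 1) + 1 ≤ j' by omega)
        have h2 := cp_one_up l (m + 1)
        omega
      rcases Nat.eq_zero_or_pos m with hm0 | hm0
      · -- first zero
        subst hm0
        rw [hF.t0] at hjk hkj' hk0 hm1
        obtain rfl : j = 0 := by omega
        have hv0 : fixSeq 10 0 ≠ 10 - 1 := by rw [hF.v0]; norm_num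
        have ht1 := hF.ts2 hv0
        rw [hF.t0] at ht1
        obtain rfl : j' = 2 := by omega
        have hv1 : fixSeq 10 1 = 1 := by
          have := hF.a1' hv0
          rw [hF.t0, hF.v0] at this
          exact this
        have c1 := cp_succ l 0
        have c2 := cp_succ l 1
        rw [hF.v0, Nat.add_zero l] at c1
        rw [hv1] at c2
        have c0 := cp_zero l
        rw [cp_up, ht1] at hnext
        obtain ⟨he, he1, hI, hI1, hg10, hg, hA1, hx, hl1⟩ := num l
        simp only [Nat.zero_add, Nat.reduceAdd] at *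
        omega
      · obtain ⟨m0, rfl⟩ : ∃ m0, m = m0 + 1 := ⟨m - 1, by omega⟩
        have hprev : cp (l + 1) m0 < s := by
          by_contra hc
          exact Z2 hp hPp h2P hN (show m0 < m0 + 1 by omega) (by omega) i2
        have hjgt : tau 10 m0 < j := by
          apply cp_inj l
          rw [← cp_up]
          omega
        rw [cp_up] at hprev hnext
        have hctx := context m0
        have hx9 := v_le m0
        have hz9 := v_le (m0 + 1)
        rcases hF.right m0 with ⟨x1, x2, x3⟩ | ⟨x1, x2, x3, x4⟩ <;>
          rcases hF.right (m0 + 1) with ⟨z1, z2, z3⟩ | ⟨z1, z2, z3, z4⟩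
        · -- single, single
          have t1 := hF.ts2 x1
          have t2 := hF.ts2 z1
          rw [t1] at hjk hkj' z2 z3
          rw [t2, t1] at hnext hj'le
          refine leafSS hp h2P hs ht hP (hF.a0 m0) x2 x3 z2 z3
            (by omega) (by omega) (by omega) hprev hnext (by omega) (by omega) (by omega)
        · -- single, double
          have t1 := hF.ts2 x1
          have t2 := hF.ts1 z1
          rw [t1] at hjk hkj' z2 z3 z4
          rw [t2, t1] at hnext hj'le
          have hx0 : fixSeq 10 m0 = 0 := by omega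
          rw [hx0] at x2
          exact leafSD hp h2P hs ht hP (hF.a0 m0) x2 x3 z2 z3 z4 hprev hnext
            (by omega) (by omega) (by omega)
        · -- double, single
          have t1 := hF.ts1 x1
          have t2 := hF.ts2 z1
          rw [t1] at hjk hkj' z2 z3
          rw [t2, t1] at hnext hj'le
          have hz0 : fixSeq 10 (m0 + 1) = 0 := by omega
          rw [hz0] at z2
          exact leafDS hp h2P hs ht hP (hF.a0 m0) x2 x3 x4 z2 z3 hprev hnext
            (by omega) (by omega) (by omega)
        · -- double, double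
          have t1 := hF.ts1 x1
          have t2 := hF.ts1 z1
          rw [t1] at hjk hkj' z2 z3 z4
          rw [t2, t1] at hnext hj'le
          exact leafDD hp h2P hs ht hP (hF.a0 m0) x2 x3 x4 z2 z3 z4 hprev hnext
            (by omega) (by omega) (by omega)

end Run7.h796.Rep
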