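import Pool.Agent.Run7.h796.Runs3

/-!
The critical exponent of `U` is at most `35/17`.
-/

namespace Run7.h796.Rep

/-- length of the common beginning -/
def ml : List (Fin 5) → List (Fin 5) → ℕ
  | a :: x, b :: y => if a = b then ml x y + 1 else 0
  | _, _ => 0

lemma ml_ge (x y : List (Fin 5)) (n : ℕ) (hx : n ≤ x.length) (hy : n ≤ y.length)
    (h : ∀ i (h1 : i < x.length) (h2 : i < y.length), i < n → x[i] = y[i]) : n ≤ ml x y := by
  induction n generalizing x y with
  | zero => omega
  | succ n ih =>
    match x, y, hx, hy, h with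
    | a :: x, b :: y, hx, hy, h =>
      have h0 := h 0 (by simp) (by simp) (by omega)
      simp only [List.getElem_cons_zero] at h0
      subst h0
      simp only [ml, if_true]
      have := ih x y (by simpa using hx) (by simpa using hy) (by
        intro i h1 h2 hi
        have := h (i + 1) (by simp; omega) (by simp; omega) (by omega)
        simpa using this)
      omega

/-- exponent test for one finite word -/
def chk (w : List (Fin 5)) : Bool :=
  (List.range (w.length + 1)).all fun s => (List.range (w.length + 1)).all fun P =>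
    decide (17 * ml (w.drop s) (w.drop (s + P)) ≤ 18 * P) || decide (P = 0)

lemma chk_sound (w : List (Fin 5)) (hw : chk w = true) (s t P : ℕ) (hP : 1 ≤ P)
    (ht : t ≤ w.length) (h2 : s + 2 * P ≤ t)
    (h : ∀ i (h1 : i + P < w.length), s ≤ i → i + P < t → w[i] = w[i + P]) :
    17 * t ≤ 35 * P + 17 * s := by
  unfold chk at hw
  simp only [List.all_eq_true, List.mem_range, Bool.or_eq_true, decide_eq_true_eq] at hw
  have h3 := hw s (by omega) P (by omega)
  rcases h3 with h3 | h3
  swap
  · omega
  have h4 := ml_ge (w.drop s) (w.drop (s + P)) (t - s - P) (by simp; omega) (by simp; omega) (by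
    intro i h1 h2 hi
    have h1' : i < w.length - s := by simpa using h1
    have h2' : i < w.length - (s + P) := by simpa using h2
    rw [List.getElem_drop, List.getElem_drop]
    have := h (s + i) (by omega) (by omega) (by omega)
    rw [this]
    congr 1
    omega)
  omega

lemma chk_gap (i : ℕ) (hi : i < 10) : chk (gap i) = true := by
  interval_cases i <;> decide

theorem runU (s t P : ℕ) (hPp : 1 ≤ P) (hp : Per s t P) (h2P : s + 2 * P ≤ t) :
    17 * t ≤ 35 * P + 17 * s := by
  by_cases hc : ∃ j, s ≤ cp 0 j ∧ cp 0 j < t
  · obtain ⟨j, h1, h2⟩ := hc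
    rcases Nat.lt_or_ge (cp 0 j + P) t with h3 | h3
    · have h4 := hp (cp 0 j) h1 h3
      rw [U_cp] at h4
      obtain ⟨j', hj'⟩ := occ0 _ h4.symm
      exact run (P - 0) 0 s t P j j' le_rfl hp h2P (cp_inj 0 (by omega)) h1
        (by rw [lA_zero]; omega) hj'.symm
    · have h4 := hp (cp 0 j - P) (by omega) (by omega)
      rw [show cp 0 j - P + P = cp 0 j by omega, U_cp] at h4
      obtain ⟨j', hj'⟩ := occ0 _ h4
      exact run (P - 0) 0 s t P j' j le_rfl hp h2P (cp_inj 0 (by omega)) (by omega)
        (by rw [lA_zero]; omega) (by omega)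
  · obtain ⟨j, h1, h2⟩ := exists_block 0 s
    have h3 : t ≤ cp 0 (j + 1) := by
      by_contra h
      exact hc ⟨j + 1, by omega, by omega⟩
    have h4 : s ≠ cp 0 j := by
      intro h
      exact hc ⟨j, by omega, by omega⟩
    have hv := fixSeq_lt 10 (by norm_num) j
    have hlen := gap_len _ hv
    have hS := cp_succ 0 j
    rw [Nat.zero_add, lA_zero] at hS
    have h5 := chk_sound _ (chk_gap _ hv) (s - cp 0 j - 1) (t - cp 0 j - 1) P hPp
      (by omega) (by omega) (by
        intro i hi hi1 hi2
        rw [← U_gap j i (by omega), ← U_gap j (i + P) (by omega)]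
        have := hp (cp 0 j + 1 + i) (by omega) (by omega)
        rw [this, Nat.add_assoc])
    omega

lemma block_length {α : Type} (u : ℕ → α) (j m : ℕ) : (block u j m).length = m := by
  simp [block]

lemma block_get? {α : Type} (u : ℕ → α) (j m i : ℕ) (h : i < m) :
    (block u j m)[i]? = some (u (j + i)) := by
  simp [block, h]

lemma minPeriod_spec {α : Type} (w : List α) (hw : 0 < w.length) : IsPeriod w (minPeriod w) := by
  have h : {q | IsPeriod w q}.Nonempty := ⟨w.length, hw, fun i hi => by omega⟩
  exact Nat.sInf_mem h

lemma minPeriod_le {α : Type} (w : List α) (q : ℕ) (h : IsPeriod w q) : minPeriod w ≤ q :=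
  Nat.sInf_le h

theorem exponent_U (j m : ℕ) (hm : 0 < m) : exponent (block U j m) ≤ 35 / 17 := by
  have hlen := block_length U j m
  obtain ⟨hq, hper⟩ := minPeriod_spec (block U j m) (by rw [hlen]; exact hm)
  unfold exponent
  set q := minPeriod (block U j m) with hqdef
  rw [hlen] at hper ⊢
  have hqr : (0 : ℝ) < q := by exact_mod_cast hq
  rw [div_le_div_iff₀ hqr (by norm_num)]
  have key : m * 17 ≤ 35 * q := by
    rcases Nat.lt_or_ge m (2 * q) with h | h
    · omega
    · have hp : Per j (j + m) q := by
        intro i h1 h2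
        have h3 := hper (i - j) (by omega)
        rw [block_get? U j m _ (by omega), block_get? U j m _ (by omega)] at h3
        have h4 := Option.some.inj h3
        rw [show j + (i - j) = i by omega, show j + (i - j + q) = i + q by omega] at h4
        exact h4
      have := runU j (j + m) q hq hp (by omega)
      omega
  exact_mod_cast key

theorem critExp_U : critExp U ≤ ((35 / 17 : ℝ) : EReal) := by
  unfold critExp
  refine iSup_le fun j => iSup_le fun m => iSup_le fun hm => ?_
  exact_mod_cast exponent_U j m hm

end Run7.h796.Rep
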