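import Pool.Agent.Run7.h796.VSeq

/-!
Local structure of the fixed point.
-/

namespace Run7.h796.Rep

namespace IsFix

variable {n : ℕ} {v τ : ℕ → ℕ}

lemma dec (h : IsFix n v τ) (i : ℕ) :
    ∃ j, i = τ j ∨ i = τ j + 1 ∨ (i = τ j + 2 ∧ v j = n - 1) := by
  induction i with
  | zero => exact ⟨0, Or.inl h.t0.symm⟩
  | succ i ih =>
    obtain ⟨j, h1 | h1 | ⟨h1, h2⟩⟩ := ih
    · exact ⟨j, Or.inr (Or.inl (by omega))⟩
    · by_cases hv : v j = n - 1
      · exact ⟨j, Or.inr (Or.inr ⟨by omega, hv⟩)⟩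
      · refine ⟨j + 1, Or.inl ?_⟩
        rw [h.ts, if_neg hv]; omega
    · refine ⟨j + 1, Or.inl ?_⟩
      rw [h.ts, if_pos h2]; omega

lemma ts1 (h : IsFix n v τ) {j : ℕ} (hv : v j = n - 1) : τ (j + 1) = τ j + 3 := by
  rw [h.ts, if_pos hv]

lemma ts2 (h : IsFix n v τ) {j : ℕ} (hv : v j ≠ n - 1) : τ (j + 1) = τ j + 2 := by
  rw [h.ts, if_neg hv]

lemma a1' (h : IsFix n v τ) {j : ℕ} (hv : v j ≠ n - 1) : v (τ j + 1) = v j + 1 := by
  apply h.a1
  have := h.lt j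
  omega

lemma one_ne (h : IsFix n v τ) (hn : 2 ≤ n) (j : ℕ) : v (τ j + 1) ≠ 0 := by
  by_cases hv : v j = n - 1
  · rw [(h.a2 j hv).1]; omega
  · rw [h.a1' hv]; omega

lemma zero_iff (h : IsFix n v τ) (hn : 2 ≤ n) (i : ℕ) : v i = 0 ↔ ∃ j, i = τ j := by
  constructor
  · intro hi
    obtain ⟨j, h1 | h1 | ⟨h1, h2⟩⟩ := h.dec i
    · exact ⟨j, h1⟩
    · exact absurd (h1 ▸ hi) (h.one_ne hn j)
    · have := (h.a2 j h2).2
      rw [← h1, hi] at this
      omega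
  · rintro ⟨j, rfl⟩
    exact h.a0 j

/-- two consecutive letters -/
lemma V1 (h : IsFix n v τ) (i : ℕ) :
    v i = 0 ∨ v (i + 1) = 0 ∨ (v i = n - 1 ∧ v (i + 1) = n - 1) := by
  obtain ⟨j, h1 | h1 | ⟨h1, h2⟩⟩ := h.dec i
  · left; rw [h1]; exact h.a0 j
  · by_cases hv : v j = n - 1
    · right; right
      have := h.a2 j hv
      rw [h1]
      exact this
    · right; left
      have h3 := h.ts2 hv
      rw [h1, show τ j + 1 + 1 = τ (j + 1) by omega]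
      exact h.a0 _
  · right; left
    have h3 := h.ts1 h2
    rw [h1, show τ j + 2 + 1 = τ (j + 1) by omega]
    exact h.a0 _

lemma V2 (h : IsFix n v τ) (hn : 2 ≤ n) (i : ℕ) (hi : v i = 0) : v (i + 1) ≠ 0 := by
  obtain ⟨j, rfl⟩ := (h.zero_iff hn i).1 hi
  exact h.one_ne hn j

/-- right context of a zero -/
lemma right (h : IsFix n v τ) (j : ℕ) :
    (v j ≠ n - 1 ∧ v (τ j + 1) = v j + 1 ∧ v (τ j + 2) = 0) ∨
    (v j = n - 1 ∧ v (τ j + 1) = n - 1 ∧ v (τ j + 2) = n - 1 ∧ v (τ j + 3) = 0) := by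
  by_cases hv : v j = n - 1
  · right
    refine ⟨hv, (h.a2 j hv).1, (h.a2 j hv).2, ?_⟩
    rw [← h.ts1 hv]; exact h.a0 _
  · left
    refine ⟨hv, h.a1' hv, ?_⟩
    rw [← h.ts2 hv]; exact h.a0 _

lemma small (h : IsFix n v τ) (i : ℕ) (hi : i ≤ n - 1) :
    (∀ j, j < 2 ^ i - 1 → v j < i) ∧ v (2 ^ i - 1) = i ∧ (∀ j, j ≤ 2 ^ i - 1 → τ j = 2 * j) := by
  induction i with
  | zero =>
    refine ⟨?_, ?_, ?_⟩
    · intro j hj; simp at hj
    · simpa using h.v0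
    · intro j hj
      have : j = 0 := by simpa using hj
      subst this
      simpa using h.t0
  | succ i ih =>
    obtain ⟨h1, h2, h3⟩ := ih (by omega)
    have hp : 1 ≤ 2 ^ i := Nat.one_le_two_pow
    have hp2 : 2 ^ (i + 1) = 2 * 2 ^ i := by ring
    have h4 : ∀ j, j ≤ 2 ^ i - 1 → τ (j + 1) = 2 * (j + 1) := by
      intro j hj
      have hv : v j ≠ n - 1 := by
        rcases Nat.lt_or_ge j (2 ^ i - 1) with hlt | hge
        · have := h1 j hlt; omega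
        · have : j = 2 ^ i - 1 := by omega
          rw [this, h2]; omega
      rw [h.ts2 hv, h3 j hj]; ring
    have h5 : ∀ m, m < 2 ^ (i + 1) - 1 → v m < i + 1 := by
      intro m hm
      rcases Nat.even_or_odd' m with ⟨j, hj | hj⟩
      · have : τ j = 2 * j := h3 j (by omega)
        rw [hj, ← this, h.a0]; omega
      · have h6 : τ j = 2 * j := h3 j (by omega)
        have h7 : j < 2 ^ i - 1 := by omega
        have hv : v j ≠ n - 1 := by have := h1 j h7; omega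
        rw [hj, ← h6, h.a1' hv]
        have := h1 j h7
        omega
    have h8 : v (2 ^ (i + 1) - 1) = i + 1 := by
      have h6 : τ (2 ^ i - 1) = 2 * (2 ^ i - 1) := h3 _ le_rfl
      have hv : v (2 ^ i - 1) ≠ n - 1 := by rw [h2]; omega
      have h9 : 2 ^ (i + 1) - 1 = τ (2 ^ i - 1) + 1 := by omega
      rw [h9, h.a1' hv, h2]
    refine ⟨h5, h8, ?_⟩
    -- τ j = 2 j for all j ≤ 2^(i+1) - 1
    intro j
    induction j with
    | zero => intro _; simpa using h.t0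
    | succ j ihj =>
      intro hj
      have hv : v j ≠ n - 1 := by
        have := h5 j (by omega)
        omega
      rw [h.ts2 hv, ihj (by omega)]; ring

/-- The even positions up to `2^n - 2` carry the letter zero. -/
lemma even_zero (h : IsFix n v τ) (hn : 2 ≤ n) (i : ℕ) (hi : 2 * i ≤ 2 ^ n - 2) : v (2 * i) = 0 := by
  obtain ⟨m, rfl⟩ : ∃ m, n = m + 1 := ⟨n - 1, by omega⟩
  have h1 := (h.small m (by omega)).2.2 i
  have hp2 : 2 ^ (m + 1) = 2 * 2 ^ m := by ring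
  have hp : 1 ≤ 2 ^ m := Nat.one_le_two_pow
  rw [← h1 (by omega)]
  exact h.a0 i

/-- the first occurrence of a doubled letter -/
lemma dbl (h : IsFix n v τ) (hn : 2 ≤ n) :
    v (2 ^ n - 2) = 0 ∧ v (2 ^ n - 1) = n - 1 ∧ v (2 ^ n) = n - 1 ∧ v (2 ^ n + 1) = 0 := by
  obtain ⟨m, rfl⟩ : ∃ m, n = m + 1 := ⟨n - 1, by omega⟩
  obtain ⟨h1, h2, h3⟩ := h.small m (by omega)
  have hp2 : 2 ^ (m + 1) = 2 * 2 ^ m := by ring
  have hp : 1 ≤ 2 ^ m := Nat.one_le_two_pow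
  have h4 := h3 (2 ^ m - 1) le_rfl
  have h5 : v (2 ^ m - 1) = m + 1 - 1 := by rw [h2]; omega
  have h6 := h.right (2 ^ m - 1)
  rcases h6 with ⟨h7, _⟩ | ⟨_, h7, h8, h9⟩
  · exact absurd h5 h7
  · refine ⟨?_, ?_, ?_, ?_⟩
    · rw [show 2 ^ (m + 1) - 2 = τ (2 ^ m - 1) by omega]; exact h.a0 _
    · rw [show 2 ^ (m + 1) - 1 = τ (2 ^ m - 1) + 1 by omega]; exact h7
    · rw [show 2 ^ (m + 1) = τ (2 ^ m - 1) + 2 by omega]; exact h8
    · rw [show 2 ^ (m + 1) + 1 = τ (2 ^ m - 1) + 3 by omega]; exact h9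

end IsFix

end Run7.h796.Rep
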