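import Pool.Agent.Run7.h796.Defs

/-!
Combinatorics of the fixed point `fixSeq n`.
-/

namespace Run7.h796.Rep

/-- Abstract description of the fixed point `v` and of the starting positions `τ` of the
images of its letters. -/
structure IsFix (n : ℕ) (v τ : ℕ → ℕ) : Prop where
  t0 : τ 0 = 0
  ts : ∀ j, τ (j + 1) = τ j + (if v j = n - 1 then 3 else 2)
  v0 : v 0 = 0
  lt : ∀ j, v j < n
  a0 : ∀ j, v (τ j) = 0
  a1 : ∀ j, v j + 1 < n → v (τ j + 1) = v j + 1
  a2 : ∀ j, v j = n - 1 → v (τ j + 1) = n - 1 ∧ v (τ j + 2) = n - 1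

/-- iterates of the morphism -/
def W (n k : ℕ) : List ℕ := (morphWord n)^[k] [0]

lemma W_succ (n k : ℕ) : W n (k + 1) = morphWord n (W n k) := by
  unfold W; rw [Function.iterate_succ_apply']

lemma morphWord_append (n : ℕ) (x y : List ℕ) :
    morphWord n (x ++ y) = morphWord n x ++ morphWord n y := by
  simp [morphWord]

lemma W_pre (n k : ℕ) (hn : 2 ≤ n) : W n k <+: W n (k + 1) := by
  induction k with
  | zero =>
    refine ⟨[1], ?_⟩
    have : 1 < n := by omega
    simp [W, morphWord, morph, this]
  | succ k ih =>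
    obtain ⟨t, ht⟩ := ih
    refine ⟨morphWord n t, ?_⟩
    rw [W_succ n (k+1)]
    conv_lhs => rw [W_succ n k]
    rw [← morphWord_append, ht]

lemma W_pre_le (n : ℕ) (hn : 2 ≤ n) {j k : ℕ} (h : j ≤ k) : W n j <+: W n k := by
  induction k, h using Nat.le_induction with
  | base => exact List.prefix_refl _
  | succ k _ ih => exact ih.trans (W_pre n k hn)

lemma morph_len (n i : ℕ) : (morph n i).length = if i + 1 < n then 2 else 3 := by
  unfold morph; split_ifs <;> rfl

lemma morphWord_len (n : ℕ) (w : List ℕ) : 2 * w.length ≤ (morphWord n w).length := by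
  induction w with
  | nil => simp [morphWord]
  | cons a w ih =>
    have h : morphWord n (a :: w) = morph n a ++ morphWord n w := by simp [morphWord]
    rw [h, List.length_append, morph_len]
    split_ifs <;> simp <;> omega

lemma W_len (n k : ℕ) : k < (W n k).length := by
  induction k with
  | zero => simp [W]
  | succ k ih =>
    rw [W_succ]
    have := morphWord_len n (W n k)
    omega

/-- initial word of a sequence -/
def pre {α : Type} (v : ℕ → α) (m : ℕ) : List α := (List.range m).map v

@[simp] lemma pre_len {α : Type} (v : ℕ → α) (m : ℕ) : (pre v m).length = m := by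
  simp [pre]

lemma pre_get {α : Type} (v : ℕ → α) (m i : ℕ) (h : i < (pre v m).length) :
    (pre v m)[i] = v i := by
  simp [pre]

lemma pre_succ {α : Type} (v : ℕ → α) (m : ℕ) : pre v (m + 1) = pre v m ++ [v m] := by
  simp [pre, List.range_succ]

lemma prefix_pre {α : Type} (v : ℕ → α) (L : ℕ) (x : List α) (h : x <+: pre v L) :
    x = pre v x.length := by
  apply List.ext_getElem
  · simp
  · intro i h1 h2
    rw [pre_get]
    rw [h.getElem h1, pre_get]

lemma W_get (n : ℕ) (hn : 2 ≤ n) (k i : ℕ) (h : i < (W n k).length) :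
    (W n k)[i] = fixSeq n i := by
  have h2 : i < (W n i).length := W_len n i
  have h3 : fixSeq n i = (W n i)[i] := by
    unfold fixSeq
    change (W n i).getD i 0 = _
    rw [List.getD_eq_getElem _ _ h2]
  rw [h3]
  rcases le_total i k with hik | hik
  · exact ((W_pre_le n hn hik).getElem h2).symm
  · exact (W_pre_le n hn hik).getElem h

lemma W_eq (n : ℕ) (hn : 2 ≤ n) (k : ℕ) : W n k = pre (fixSeq n) (W n k).length := by
  apply List.ext_getElem
  · simp
  · intro i h1 h2
    rw [pre_get, W_get n hn]

lemma pre_prefix {α : Type} (v : ℕ → α) {a b : ℕ} (h : a ≤ b) : pre v a <+: pre v b := by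
  induction b, h using Nat.le_induction with
  | base => exact List.prefix_refl _
  | succ b _ ih => exact ih.trans ⟨[v b], (pre_succ v b).symm⟩

/-- start of the image of letter number `j` -/
def tau (n j : ℕ) : ℕ := (morphWord n (pre (fixSeq n) j)).length

lemma morph_pre (n : ℕ) (hn : 2 ≤ n) (m : ℕ) :
    morphWord n (pre (fixSeq n) m) = pre (fixSeq n) (tau n m) := by
  have h1 : pre (fixSeq n) m <+: W n m := by
    rw [W_eq n hn m]
    exact pre_prefix _ (W_len n m).le
  obtain ⟨t, ht⟩ := h1
  have h2 : morphWord n (pre (fixSeq n) m) <+: W n (m + 1) := by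
    refine ⟨morphWord n t, ?_⟩
    rw [← morphWord_append, ht, W_succ]
  rw [W_eq n hn (m+1)] at h2
  exact prefix_pre _ _ _ h2

lemma tau_succ' (n j : ℕ) :
    tau n (j + 1) = tau n j + (morph n (fixSeq n j)).length := by
  unfold tau
  rw [pre_succ, morphWord_append, List.length_append]
  simp [morphWord]

lemma letter_tau (n : ℕ) (hn : 2 ≤ n) (j r : ℕ) (hr : r < (morph n (fixSeq n j)).length) :
    fixSeq n (tau n j + r) = (morph n (fixSeq n j))[r] := by
  have h1 := morph_pre n hn (j + 1)
  rw [pre_succ, morphWord_append, morph_pre n hn j] at h1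
  have h2 : morphWord n [fixSeq n j] = morph n (fixSeq n j) := by simp [morphWord]
  rw [h2] at h1
  have h3 : tau n j + r < (pre (fixSeq n) (tau n (j+1))).length := by
    rw [pre_len, tau_succ']; omega
  have h4 : (pre (fixSeq n) (tau n (j+1)))[tau n j + r] = fixSeq n (tau n j + r) := pre_get _ _ _ h3
  rw [← h4]
  have h5 : tau n j + r < (pre (fixSeq n) (tau n j) ++ morph n (fixSeq n j)).length := by
    rw [h1]; exact h3
  have h6 : (pre (fixSeq n) (tau n j) ++ morph n (fixSeq n j))[tau n j + r]'h5
      = (pre (fixSeq n) (tau n (j+1)))[tau n j + r]'h3 := by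
    simp only [h1]
  rw [← h6, List.getElem_append_right (by simp)]
  simp

lemma morphWord_lt (n : ℕ) (hn : 2 ≤ n) (w : List ℕ) :
    ∀ x ∈ morphWord n w, x < n := by
  intro x hx
  simp only [morphWord, List.mem_flatMap] at hx
  obtain ⟨a, _, hx⟩ := hx
  unfold morph at hx
  split_ifs at hx with h
  · simp at hx; omega
  · simp at hx; omega

lemma fixSeq_lt (n : ℕ) (hn : 2 ≤ n) (i : ℕ) : fixSeq n i < n := by
  have h := W_get n hn (i + 1) i (by have := W_len n (i+1); omega)
  rw [← h]
  apply morphWord_lt n hn (W n i)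
  rw [← W_succ]
  exact List.getElem_mem _

theorem isFix_fixSeq (n : ℕ) (hn : 2 ≤ n) : IsFix n (fixSeq n) (tau n) where
  t0 := by simp [tau, pre, morphWord]
  ts := by
    intro j
    rw [tau_succ', morph_len]
    have := fixSeq_lt n hn j
    split_ifs <;> omega
  v0 := by simp [fixSeq]
  lt := fixSeq_lt n hn
  a0 := by
    intro j
    have h := letter_tau n hn j 0 (by rw [morph_len]; split_ifs <;> omega)
    rw [Nat.add_zero] at h
    rw [h]
    unfold morph
    split_ifs <;> rfl
  a1 := by
    intro j hj
    have h := letter_tau n hn j 1 (by rw [morph_len]; split_ifs <;> omega)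
    rw [h]
    simp [morph, hj]
  a2 := by
    intro j hj
    have hj' : ¬ (fixSeq n j + 1 < n) := by omega
    constructor
    · have h := letter_tau n hn j 1 (by rw [morph_len]; split_ifs; omega)
      rw [h]; simp [morph, hj']
    · have h := letter_tau n hn j 2 (by rw [morph_len]; split_ifs; omega)
      rw [h]; simp [morph, hj']

end Run7.h796.Rep
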