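import Pool.Agent.Run7.h796.Lens

/-!
The rich sequence on five letters.
-/

namespace Run7.h796.Rep

/-- the word `B` -/
def wB : List (Fin 5) := [2,3,2,3,3,2,3,2,2,3,2,3,3,2,3,2]

/-- the gap words -/
def gap : ℕ → List (Fin 5)
  | 0 => [0]
  | 1 => [0, 0]
  | 2 => []
  | 3 => [1, 1]
  | 4 => [1]
  | 5 => [1, 2, 1]
  | 6 => [1, 2, 3, 2, 1]
  | 7 => [1, 2, 3, 2, 3, 3, 2, 3, 2, 1]
  | 8 => [1] ++ wB ++ [1]
  | 9 => [1] ++ wB ++ [1] ++ wB ++ [1]
  | _ => []

def L10 : List ℕ := [1, 2, 0, 2, 1, 3, 5, 10, 18, 35]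

/-- lengths -/
def lA : ℕ → ℕ := lenA 1 L10
def lG : ℕ → ℕ := lenG 1 L10

/-- image of a letter -/
def R0 (i : ℕ) : List (Fin 5) := 4 :: gap i

/-- the sequence -/
def U : ℕ → Fin 5 := fun y => ((pre (fixSeq 10) (y + 1)).flatMap R0).getD y 4

/-- block positions -/
def cp (l j : ℕ) : ℕ := cpos lA lG (fixSeq 10) l j

lemma isLenU : IsLen 10 (fixSeq 10) (tau 10) lA lG := isLen_len 1 L10 (by decide)

lemma gap_len (i : ℕ) (hi : i < 10) : (gap i).length = lG i := by
  have h := lenG_small 1 L10 (by decide) i hi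
  unfold lG
  rw [h]
  interval_cases i <;> rfl

lemma lA_zero : lA 0 = 1 := rfl

lemma R0_len (i : ℕ) (hi : i < 10) : (R0 i).length = lA 0 + lG i := by
  rw [lA_zero, ← gap_len i hi]; simp [R0]; omega

lemma flat_len (j : ℕ) : ((pre (fixSeq 10) j).flatMap R0).length = cp 0 j := by
  unfold cp
  induction j with
  | zero => simp [pre, cpos]
  | succ j ih =>
    rw [pre_succ, List.flatMap_append, List.length_append, ih, c_succ]
    congr 1
    simp only [List.flatMap_cons, List.flatMap_nil, List.append_nil]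
    rw [R0_len _ (fixSeq_lt 10 (by norm_num) j), Nat.zero_add]

lemma cp_ge (l j : ℕ) (hl : 1 ≤ lA l) : j ≤ cp l j := by
  unfold cp
  induction j with
  | zero => omega
  | succ j ih => rw [c_succ]; omega

lemma flatMap_prefix {x y : List ℕ} (h : x <+: y) : x.flatMap R0 <+: y.flatMap R0 := by
  obtain ⟨t, rfl⟩ := h
  rw [List.flatMap_append]
  exact ⟨_, rfl⟩

lemma U_get (j s : ℕ) (hs : s < (R0 (fixSeq 10 j)).length) :
    U (cp 0 j + s) = (R0 (fixSeq 10 j))[s] := by
  have hj : j ≤ cp 0 j := cp_ge 0 j (by rw [lA_zero])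
  have h1 : (pre (fixSeq 10) (j + 1)).flatMap R0
      <+: (pre (fixSeq 10) (cp 0 j + s + 1)).flatMap R0 :=
    flatMap_prefix (pre_prefix _ (by omega))
  have h2 : (pre (fixSeq 10) (j + 1)).flatMap R0
      = (pre (fixSeq 10) j).flatMap R0 ++ R0 (fixSeq 10 j) := by
    rw [pre_succ, List.flatMap_append]; simp
  rw [h2] at h1
  have hlen := flat_len j
  have h3 : cp 0 j + s < ((pre (fixSeq 10) j).flatMap R0 ++ R0 (fixSeq 10 j)).length := by
    rw [List.length_append, hlen]; omega
  have h4 := h1.getElem h3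
  have h5 := h1.length_le
  unfold U
  rw [List.getD_eq_getElem _ _ (by omega), ← h4, List.getElem_append_right (by omega)]
  simp [hlen]

lemma U_gap (j t : ℕ) (ht : t < (gap (fixSeq 10 j)).length) :
    U (cp 0 j + 1 + t) = (gap (fixSeq 10 j))[t] := by
  have h := U_get j (1 + t) (by simp [R0]; omega)
  rw [← Nat.add_assoc] at h
  rw [h]
  simp only [R0, Nat.add_comm 1 t, List.getElem_cons_succ]

lemma U_cp (j : ℕ) : U (cp 0 j) = 4 := by
  have h := U_get j 0 (by simp [R0])
  rw [Nat.add_zero] at h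
  rw [h]; rfl

lemma U_gapA (i t : ℕ) (hi : i < 10) (ht : t < (gap i).length) :
    U (lA i + t) = (gap i)[t] := by
  have h1 := isLenU.c_pow i (by omega) 0
  have h2 := (isLenU.fix.small i (by omega)).2.1
  have h3 := U_gap (2 ^ i - 1) t (by rw [h2]; exact ht)
  rw [Nat.zero_add, lA_zero] at h1
  have h4 : cp 0 (2 ^ i - 1) + 1 = lA i := h1
  rw [h4] at h3
  rw [h3]
  congr 1
  rw [h2]

lemma gap_pal (i : ℕ) (hi : i < 10) : (gap i).reverse = gap i := by
  interval_cases i <;> rfl

theorem isSysU : IsSys 10 (fixSeq 10) (tau 10) U lA lG where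
  toIsLen := isLenU
  T1 := by
    intro j t ht
    rw [lA_zero] at ht
    obtain rfl : t = 0 := by omega
    have h1 := U_cp j
    have h2 := U_cp 0
    have h3 : cp 0 0 = 0 := by simp [cp, cpos]
    rw [h3] at h2
    rw [Nat.add_zero, h2]
    exact h1
  T2 := by
    intro j t ht
    have hj := fixSeq_lt 10 (by norm_num) j
    rw [← gap_len _ hj] at ht
    rw [U_gapA _ t hj ht, lA_zero]
    exact U_gap j t ht
  pal0 := by
    intro t ht
    rw [lA_zero] at ht
    obtain rfl : t = 0 := by omega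
    rfl
  palG := by
    intro k hk t ht
    rw [← gap_len _ hk] at ht ⊢
    rw [U_gapA k t hk ht, show lA k + (gap k).length - 1 - t = lA k + ((gap k).length - 1 - t)
      by omega, U_gapA k _ hk (by omega)]
    have h := gap_pal k hk
    have h2 : (gap k).reverse[t]'(by rw [List.length_reverse]; exact ht)
      = (gap k)[(gap k).length - 1 - t] := List.getElem_reverse _
    rw [← h2]
    simp only [h]

end Run7.h796.Rep
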